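import Pool.Agent.Lib.MP_b685ef_ag.PS.Defs

/-!
# MP_b685ef_ag, power saving, module HAD

The Hankel determinants of the power sums of `ρ g` are polynomial functions of `ρ g`.
-/

open MPb685ZO Polynomial

namespace MPb685PS

namespace HAD

theorem pow_mem {K : Type*} [Field K] {Γ : Type*} [Group Γ] {V : Type*} [AddCommGroup V]
    [Module K V] [FiniteDimensional K V] (ρ : Representation K Γ V) (j : ℕ) :
    ∀ (v : V) (φ : Module.Dual K V), (fun g => φ ((ρ g ^ j) v)) ∈
      (Algebra.adjoin K {f : Γ → K | ∃ (v : V) (φ : Module.Dual K V),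
        f = fun g => φ (ρ g v)} : Subalgebra K (Γ → K)) := by
  induction j with
  | zero =>
    intro v φ
    exact Subalgebra.algebraMap_mem _ (φ v)
  | succ j ih =>
    intro v φ
    have b := Module.finBasis K V
    have h : (fun g => φ ((ρ g ^ (j + 1)) v)) =
        ∑ i, (fun g => b.coord i (ρ g v)) * (fun g => φ ((ρ g ^ j) (b i))) := by
      funext g
      have h1 : ρ g v = ∑ i, b.coord i (ρ g v) • b i := by
        conv_lhs => rw [← b.sum_repr (ρ g v)]
        rfl
      have h2 : φ ((ρ g ^ (j + 1)) v) =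
          ∑ i, b.coord i (ρ g v) * φ ((ρ g ^ j) (b i)) := by
        rw [pow_succ, Module.End.mul_apply]
        conv_lhs => rw [h1]
        rw [map_sum, map_sum]
        refine Finset.sum_congr rfl fun i _ => ?_
        rw [map_smul, map_smul, smul_eq_mul]
      rw [h2, Finset.sum_apply]
      rfl
    rw [h]
    refine Subalgebra.sum_mem _ fun i _ => Subalgebra.mul_mem _ ?_ (ih (b i) φ)
    exact Algebra.subset_adjoin ⟨v, b.coord i, rfl⟩

theorem trace_mem {K : Type*} [Field K] {Γ : Type*} [Group Γ] {V : Type*} [AddCommGroup V]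
    [Module K V] [FiniteDimensional K V] (ρ : Representation K Γ V) (j : ℕ) :
    (fun g => LinearMap.trace K V (ρ g ^ j)) ∈
      (Algebra.adjoin K {f : Γ → K | ∃ (v : V) (φ : Module.Dual K V),
        f = fun g => φ (ρ g v)} : Subalgebra K (Γ → K)) := by
  have b := Module.finBasis K V
  have h : (fun g => LinearMap.trace K V (ρ g ^ j)) =
      ∑ i, (fun g => b.coord i ((ρ g ^ j) (b i))) := by
    funext g
    rw [LinearMap.trace_eq_matrix_trace K b]
    simp [Matrix.trace, LinearMap.toMatrix_apply]
  rw [h]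
  exact Subalgebra.sum_mem _ fun i _ => pow_mem ρ j (b i) (b.coord i)

end HAD

theorem specHAD {K : Type*} [Field K] {Γ : Type*} [Group Γ] {V : Type*} [AddCommGroup V]
    [Module K V] [FiniteDimensional K V] (ρ : Representation K Γ V) (k : ℕ) :
    (fun g => hank k (ρ g)) ∈ (Algebra.adjoin K {f : Γ → K | ∃ (v : V) (φ : Module.Dual K V),
        f = fun g => φ (ρ g v)} : Subalgebra K (Γ → K)) := by
  classical
  have h : (fun g => hank k (ρ g)) =
      ∑ σ : Equiv.Perm (Fin k), ((Equiv.Perm.sign σ : ℤ) : K) •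
        ∏ i : Fin k, (fun g => LinearMap.trace K V (ρ g ^ ((σ i : ℕ) + (i : ℕ)))) := by
    funext g
    rw [hank, Matrix.det_apply']
    simp [Finset.sum_apply, Finset.prod_apply]
  rw [h]
  refine Subalgebra.sum_mem _ fun σ _ => Subalgebra.smul_mem _ ?_ _
  exact Subalgebra.prod_mem _ fun i _ => HAD.trace_mem ρ _

end MPb685PS
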