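import Pool.Agent.Lib.MP_b685ef_ag.PS.Defs
import Pool.Agent.Lib.MP_b685ef_ag.ZO.FinE

/-!
# MP_b685ef_ag, power saving, module STA

A finite-dimensional translation-stable space of functions on a profinite group: there is an open
normal subgroup `U` such that a function of the space which is not zero on `g (U ⊓ Γ0)` is nonzero
at points `g u` with `u ∈ U ⊓ Γ0` arbitrarily near to `1`.
-/

open MPb685ZO Polynomial

namespace MPb685PS

theorem specSTA {K : Type*} [Field K] {Γ : Type*} [Group Γ] [TopologicalSpace Γ]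
    [IsTopologicalGroup Γ] [CompactSpace Γ] [T2Space Γ] [TotallyDisconnectedSpace Γ]
    (E : Submodule K (Γ → K)) [FiniteDimensional K E]
    (hleft : ∀ f ∈ E, ∀ x : Γ, (fun y => f (x * y)) ∈ E) (Γ0 : Subgroup Γ) :
    ∃ U : Subgroup Γ, U.Normal ∧ IsOpen (U : Set Γ) ∧ ∀ f ∈ E, ∀ g : Γ,
      (∃ u ∈ U ⊓ Γ0, f (g * u) ≠ 0) → ∀ O : Set Γ, IsOpen O → (1 : Γ) ∈ O →
        ∃ u ∈ U ⊓ Γ0, u ∈ O ∧ f (g * u) ≠ 0 := by
  classical
  let S : Set (Submodule K E) :=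
    {M | ∃ U : Subgroup Γ, U.Normal ∧ IsOpen (U : Set Γ) ∧
      M = MPb685ZO.MEA.van E ((U ⊓ Γ0 : Subgroup Γ) : Set Γ)}
  have hS : S.Nonempty := ⟨_, ⊤, inferInstance, isOpen_univ, rfl⟩
  obtain ⟨M, hMS, hmax⟩ := WellFounded.has_min
    (wellFounded_gt : WellFounded ((· > ·) : Submodule K E → Submodule K E → Prop)) S hS
  obtain ⟨U, hUn, hUo, rfl⟩ := hMS
  refine ⟨U, hUn, hUo, ?_⟩
  rintro f hf g ⟨u0, hu0, hne⟩ O hO h1O
  by_contra hcon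
  push Not at hcon
  obtain ⟨H, hH⟩ := ProfiniteGrp.exist_openNormalSubgroup_sub_open_nhds_of_one hO h1O
  have hinf : (U ⊓ H.toSubgroup).Normal := inferInstance
  have hinfo : IsOpen ((U ⊓ H.toSubgroup : Subgroup Γ) : Set Γ) := hUo.inter H.isOpen'
  have hle : MPb685ZO.MEA.van E ((U ⊓ Γ0 : Subgroup Γ) : Set Γ) ≤
      MPb685ZO.MEA.van E (((U ⊓ H.toSubgroup) ⊓ Γ0 : Subgroup Γ) : Set Γ) :=
    MPb685ZO.MEA.van_anti E (fun y hy => ⟨hy.1.1, hy.2⟩)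
  have heq : MPb685ZO.MEA.van E ((U ⊓ Γ0 : Subgroup Γ) : Set Γ) =
      MPb685ZO.MEA.van E (((U ⊓ H.toSubgroup) ⊓ Γ0 : Subgroup Γ) : Set Γ) := by
    by_contra hne'
    exact hmax _ ⟨_, hinf, hinfo, rfl⟩ (lt_of_le_of_ne hle hne')
  have hft : (⟨fun y => f (g * y), hleft f hf g⟩ : E) ∈
      MPb685ZO.MEA.van E (((U ⊓ H.toSubgroup) ⊓ Γ0 : Subgroup Γ) : Set Γ) := by
    intro y hy
    exact hcon y ⟨hy.1.1, hy.2⟩ (hH hy.1.2)
  rw [← heq] at hft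
  exact hne (hft u0 hu0)

end MPb685PS
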