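import Pool.Agent.Lib.MP_b685ef_ag.PS.Defs
import Pool.Agent.Lib.MP_b685ef_ag.ZO.RNK

set_option linter.all false

/-!
# MP_b685ef_ag, power saving: the Hankel determinants and the number of eigenvalues
-/

open MPb685ZO Polynomial

namespace MPb685PS

namespace HKL

variable {K : Type*} [Field K] {V : Type*} [AddCommGroup V] [Module K V] [FiniteDimensional K V]

lemma hank_eq (k : ℕ) (A : Module.End K V) : hank k A = RNK.hk k A := rfl

lemma nEig_le (A : Module.End K V) : nEig A ≤ Module.finrank K V := by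
  classical
  unfold nEig
  rw [Polynomial.rootSet, Set.ncard_coe_finset]
  refine (Multiset.toFinset_card_le _).trans ((Polynomial.card_roots' _).trans ?_)
  rw [Polynomial.natDegree_map, LinearMap.charpoly_natDegree]

lemma hank_smul (k : ℕ) (c : K) (A : Module.End K V) :
    hank k (c • A) = (∏ a : Fin k, c ^ (a : ℕ)) ^ 2 * hank k A := by
  unfold hank
  have e : (Matrix.of fun a b : Fin k =>
      LinearMap.trace K V ((c • A) ^ ((a : ℕ) + (b : ℕ)))) =
      Matrix.of fun a b : Fin k => c ^ (a : ℕ) *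
        (Matrix.of (fun a b : Fin k => c ^ (b : ℕ) *
          (Matrix.of fun a b : Fin k => LinearMap.trace K V (A ^ ((a : ℕ) + (b : ℕ)))) a b)) a b := by
    refine Matrix.ext (fun a b => ?_)
    simp only [Matrix.of_apply]
    rw [_root_.smul_pow, map_smul, smul_eq_mul, pow_add]
    ring
  rw [e, Matrix.det_mul_column, Matrix.det_mul_row]
  ring

end HKL

open HKL

theorem specHKL {K : Type*} [Field K] [CharZero K] {V : Type*} [AddCommGroup V] [Module K V]
    [FiniteDimensional K V] (A : Module.End K V) :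
    hank (nEig A) A ≠ 0 ∧ (∀ k, nEig A < k → hank k A = 0) ∧ nEig A ≤ Module.finrank K V ∧
    (∀ (k : ℕ) (c : K), hank k (c • A) = (∏ a : Fin k, c ^ (a : ℕ)) ^ 2 * hank k A) ∧
    (∀ c : K, c ≠ 0 → nEig (c • A) = nEig A) := by
  refine ⟨RNK.hk_nEig_ne_zero A, ?_, nEig_le A, fun k c => hank_smul k c A, ?_⟩
  · intro k hk
    by_contra h
    exact absurd (RNK.le_nEig (r := k) (A := A) h) (by omega)
  · have key : ∀ (c : K) (B : Module.End K V), c ≠ 0 → nEig B ≤ nEig (c • B) := by
      intro c B hc
      apply RNK.le_nEig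
      rw [← hank_eq, hank_smul]
      refine mul_ne_zero (pow_ne_zero _ ?_) (RNK.hk_nEig_ne_zero B)
      exact Finset.prod_ne_zero_iff.2 (fun a _ => pow_ne_zero _ hc)
    intro c hc
    apply le_antisymm
    · have := key c⁻¹ (c • A) (inv_ne_zero hc)
      rwa [smul_smul, inv_mul_cancel₀ hc, one_smul] at this
    · exact key c A hc

end MPb685PS
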