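import Pool.Agent.Lib.MP_b685ef_ag.PS.Defs

/-!
# MP_b685ef_ag, power saving, module NUM

The numerical choice of the level.
-/

open MPb685ZO Polynomial

namespace MPb685PS

theorem specNUM (q ℓ : ℕ) (hq : 2 ≤ q) (hℓ : 2 ≤ ℓ) (d : ℝ) (a b R : ℝ) (ha : 0 ≤ a)
    (hb : 0 ≤ b) (hR : 1 ≤ R) :
    ∃ δ : ℝ, 0 < δ ∧ ∃ C : ℝ, 0 ≤ C ∧ ∀ n : ℕ, ∃ t : ℕ,
      a * ((ℓ : ℝ) ^ t)⁻¹ * (q : ℝ) ^ ((n : ℝ) * d)
        + b * R ^ t * (q : ℝ) ^ ((n : ℝ) * (d - 1 / 2)) ≤ C * (q : ℝ) ^ ((n : ℝ) * (d - δ)) := by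
  have hq1 : (1 : ℝ) < q := by exact_mod_cast (by omega : 1 < q)
  have hℓ1 : (1 : ℝ) < ℓ := by exact_mod_cast (by omega : 1 < ℓ)
  have hq0 : (0 : ℝ) < q := by linarith
  have hℓ0 : (0 : ℝ) < ℓ := by linarith
  have hR0 : 0 < R := by linarith
  have hlq : 0 < Real.log q := Real.log_pos hq1
  have hlℓ : 0 < Real.log ℓ := Real.log_pos hℓ1
  have hlR : 0 ≤ Real.log R := Real.log_nonneg hR
  obtain ⟨η, hηdef⟩ : ∃ η, η = Real.log q / (4 * (Real.log R + 1)) := ⟨_, rfl⟩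
  have hη : 0 < η := by rw [hηdef]; positivity
  have hηR : η * Real.log R ≤ Real.log q / 4 := by
    have h1 : η * (Real.log R + 1) = Real.log q / 4 := by
      rw [hηdef]; field_simp
    nlinarith
  refine ⟨min (1 / 4) (η * Real.log ℓ / Real.log q), by positivity, a * ℓ + b, by positivity, ?_⟩
  obtain ⟨δ, hδdef⟩ : ∃ δ, δ = min (1 / 4) (η * Real.log ℓ / Real.log q) := ⟨_, rfl⟩
  rw [← hδdef]
  have hδ1 : δ ≤ 1 / 4 := by rw [hδdef]; exact min_le_left _ _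
  have hδ2 : δ * Real.log q ≤ η * Real.log ℓ := by
    have : δ ≤ η * Real.log ℓ / Real.log q := by rw [hδdef]; exact min_le_right _ _
    rwa [le_div_iff₀ hlq] at this
  intro n
  have hn : (0 : ℝ) ≤ n := Nat.cast_nonneg n
  refine ⟨⌊η * n⌋₊, ?_⟩
  obtain ⟨t, htdef⟩ : ∃ t, t = ⌊η * n⌋₊ := ⟨_, rfl⟩
  rw [← htdef]
  have ht1 : (t : ℝ) ≤ η * n := by rw [htdef]; exact Nat.floor_le (by positivity)
  have ht2 : η * n < t + 1 := by rw [htdef]; exact Nat.lt_floor_add_one _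
  have e1 : ((ℓ : ℝ) ^ t)⁻¹ ≤ ℓ * Real.exp (-(δ * Real.log q * n)) := by
    have h1 : (ℓ : ℝ) ^ t = Real.exp (Real.log ℓ * t) := by
      rw [← Real.rpow_natCast, Real.rpow_def_of_pos hℓ0]
    rw [h1, ← Real.exp_neg]
    conv_rhs => rw [← Real.exp_log hℓ0]
    rw [Real.exp_log hℓ0]
    nth_rewrite 2 [← Real.exp_log hℓ0]
    rw [← Real.exp_add]
    apply Real.exp_le_exp.mpr
    nlinarith [mul_le_mul_of_nonneg_right hδ2 hn, mul_lt_mul_of_pos_left ht2 hlℓ]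
  have e2 : R ^ t ≤ Real.exp (Real.log q / 4 * n) := by
    have h1 : R ^ t = Real.exp (Real.log R * t) := by
      rw [← Real.rpow_natCast, Real.rpow_def_of_pos hR0]
    rw [h1]
    apply Real.exp_le_exp.mpr
    nlinarith [mul_le_mul_of_nonneg_right hηR hn, mul_le_mul_of_nonneg_left ht1 hlR]
  have q1 : (q : ℝ) ^ ((n : ℝ) * d) = Real.exp (Real.log q * (n * d)) :=
    Real.rpow_def_of_pos hq0 _
  have q2 : (q : ℝ) ^ ((n : ℝ) * (d - 1 / 2)) = Real.exp (Real.log q * (n * (d - 1 / 2))) :=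
    Real.rpow_def_of_pos hq0 _
  have q3 : (q : ℝ) ^ ((n : ℝ) * (d - δ)) = Real.exp (Real.log q * (n * (d - δ))) :=
    Real.rpow_def_of_pos hq0 _
  rw [q1, q2, q3, add_mul]
  apply add_le_add
  · calc a * ((ℓ : ℝ) ^ t)⁻¹ * Real.exp (Real.log q * (n * d))
        ≤ a * (ℓ * Real.exp (-(δ * Real.log q * n))) * Real.exp (Real.log q * (n * d)) := by
          gcongr
      _ = a * ℓ * (Real.exp (-(δ * Real.log q * n)) * Real.exp (Real.log q * (n * d))) := by ring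
      _ = a * ℓ * Real.exp (Real.log q * (n * (d - δ))) := by
          rw [← Real.exp_add]; congr 2; ring
  · calc b * R ^ t * Real.exp (Real.log q * (n * (d - 1 / 2)))
        ≤ b * Real.exp (Real.log q / 4 * n) * Real.exp (Real.log q * (n * (d - 1 / 2))) := by
          gcongr
      _ = b * (Real.exp (Real.log q / 4 * n) * Real.exp (Real.log q * (n * (d - 1 / 2)))) := by
          ring
      _ = b * Real.exp (Real.log q / 4 * n + Real.log q * (n * (d - 1 / 2))) := by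
          rw [← Real.exp_add]
      _ ≤ b * Real.exp (Real.log q * (n * (d - δ))) := by
          have : Real.log q / 4 * n + Real.log q * (n * (d - 1 / 2)) ≤
              Real.log q * (n * (d - δ)) := by
            nlinarith [mul_nonneg hlq.le hn]
          gcongr

end MPb685PS
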