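import Mathlib

/-!
MP_b685ef_ag, power saving: the one variable lemma (Lagrange interpolation of binomial
series over an ultrametric field).
-/

open Finset Polynomial

namespace MPb685PS

namespace OneVar

variable {l : ℕ} [hl : Fact l.Prime] {K : Type*} [NormedField K] [IsUltrametricDist K]

/-- value at `t` of the Lagrange basis polynomial. -/
noncomputable def L (K : Type*) [NormedField K] (s : Finset ℤ) (i t : ℤ) : K :=
  ∏ j ∈ s.erase i, (((i : K) - (j : K))⁻¹ * ((t : K) - (j : K)))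

omit [IsUltrametricDist K] in
theorem cast_inj (hK : ∀ m : ℤ, ‖(m : K)‖ = ‖(m : ℚ_[l])‖) {a b : ℤ} (h : (a : K) = b) :
    a = b := by
  have h1 : ‖((a - b : ℤ) : K)‖ = 0 := by
    push_cast
    rw [h, sub_self, norm_zero]
  rw [hK, norm_eq_zero] at h1
  have h2 : (a - b : ℤ) = 0 := by exact_mod_cast h1
  omega

omit [IsUltrametricDist K] in
theorem lagrange (hK : ∀ m : ℤ, ‖(m : K)‖ = ‖(m : ℚ_[l])‖) (s : Finset ℤ)
    (R : K[X]) (hR : R.degree < s.card) (t : ℤ) :
    R.eval (t : K) = ∑ i ∈ s, R.eval (i : K) * L K s i t := by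
  have hinj : Set.InjOn (fun i : ℤ => (i : K)) s := by
    intro a _ b _ h
    exact cast_inj hK h
  conv_lhs => rw [Lagrange.eq_interpolate (s := s) (v := fun i : ℤ => (i : K)) hinj hR]
  rw [Lagrange.interpolate_apply, eval_finsetSum]
  refine Finset.sum_congr rfl fun i _ => ?_
  rw [eval_mul, eval_C, Lagrange.basis, eval_prod, L]
  congr 1
  refine Finset.prod_congr rfl fun j _ => ?_
  simp [Lagrange.basisDivisor]

omit [IsUltrametricDist K] in
/-- interpolation error of an integer polynomial. -/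
theorem interp_int (hK : ∀ m : ℤ, ‖(m : K)‖ = ‖(m : ℚ_[l])‖) (s : Finset ℤ) (P : ℤ[X]) (t : ℤ) :
    ‖((P.eval t : ℤ) : K) - ∑ i ∈ s, ((P.eval i : ℤ) : K) * L K s i t‖ ≤ 1 ∧
    (P.degree < s.card → ((P.eval t : ℤ) : K) - ∑ i ∈ s, ((P.eval i : ℤ) : K) * L K s i t = 0) := by
  set nu : ℤ[X] := ∏ i ∈ s, (X - C i) with hnu
  have hmon : nu.Monic := monic_prod_of_monic _ _ fun i _ => monic_X_sub_C i
  have hdeg : nu.degree = s.card := by
    rw [hnu, degree_prod]
    simp_rw [degree_X_sub_C]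
    simp
  have hroot : ∀ i ∈ s, nu.eval i = 0 := by
    intro i hi
    rw [hnu, eval_prod]
    exact Finset.prod_eq_zero hi (by simp)
  set Q := P %ₘ nu with hQ
  have hQdeg : Q.degree < s.card := by
    rw [← hdeg]; exact degree_modByMonic_lt P hmon
  have hsplit : ∀ x : ℤ, P.eval x = Q.eval x + nu.eval x * (P /ₘ nu).eval x := by
    intro x
    conv_lhs => rw [← modByMonic_add_div P nu]
    rw [eval_add, eval_mul]
  have hlag := lagrange hK s (Q.map (Int.castRingHom K))
    (lt_of_le_of_lt degree_map_le hQdeg) t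
  have hev : ∀ x : ℤ, (Q.map (Int.castRingHom K)).eval (x : K) = ((Q.eval x : ℤ) : K) := by
    intro x
    simp
  rw [hev] at hlag
  have hsum : ∑ i ∈ s, ((P.eval i : ℤ) : K) * L K s i t = ((Q.eval t : ℤ) : K) := by
    rw [hlag]
    refine Finset.sum_congr rfl fun i hi => ?_
    rw [hev, hsplit i, hroot i hi, zero_mul, add_zero]
  have hdiff : ((P.eval t : ℤ) : K) - ∑ i ∈ s, ((P.eval i : ℤ) : K) * L K s i t
      = ((nu.eval t * (P /ₘ nu).eval t : ℤ) : K) := by
    rw [hsum, hsplit t]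
    push_cast
    ring
  refine ⟨?_, ?_⟩
  · rw [hdiff, hK]
    exact Padic.norm_int_le_one _
  · intro hP
    have hQP : Q = P := by
      rw [hQ, modByMonic_eq_self_iff hmon, hdeg]; exact hP
    rw [hsum, hQP, sub_self]

omit [IsUltrametricDist K] in
theorem norm_int_le (hK : ∀ m : ℤ, ‖(m : K)‖ = ‖(m : ℚ_[l])‖) (m : ℤ) : ‖(m : K)‖ ≤ 1 := by
  rw [hK]; exact Padic.norm_int_le_one _

omit [IsUltrametricDist K] in
theorem norm_nat_le (hK : ∀ m : ℤ, ‖(m : K)‖ = ‖(m : ℚ_[l])‖) (m : ℕ) : ‖(m : K)‖ ≤ 1 := by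
  simpa using norm_int_le hK (m : ℤ)

omit [IsUltrametricDist K] in
theorem norm_nat_eq (hK : ∀ m : ℤ, ‖(m : K)‖ = ‖(m : ℚ_[l])‖) (m : ℕ) :
    ‖(m : K)‖ = ‖(m : ℚ_[l])‖ := by
  simpa using hK (m : ℤ)

theorem padic_factorial (j : ℕ) : ((l : ℝ) ^ j)⁻¹ ≤ ‖((j.factorial : ℕ) : ℚ_[l])‖ := by
  have hl1 : (1 : ℝ) ≤ l := by exact_mod_cast hl.out.one_lt.le
  have hne : ((j.factorial : ℕ) : ℚ_[l]) ≠ 0 := by
    exact_mod_cast Nat.factorial_ne_zero j
  rw [Padic.norm_eq_zpow_neg_valuation hne, Padic.valuation_natCast]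
  have hv : padicValNat l j.factorial ≤ j := by
    have h1 := sub_one_mul_padicValNat_factorial (p := l) j
    have h2 : 1 ≤ l - 1 := by
      have := hl.out.two_le
      omega
    calc padicValNat l j.factorial ≤ (l - 1) * padicValNat l j.factorial :=
          Nat.le_mul_of_pos_left _ h2
      _ ≤ j := by rw [h1]; omega
  rw [zpow_neg, zpow_natCast]
  have hpos : (0 : ℝ) < (l : ℝ) ^ padicValNat l j.factorial := by positivity
  exact inv_anti₀ hpos (pow_le_pow_right₀ hl1 hv)

omit [IsUltrametricDist K] in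
theorem choose_mul_factorial (t j : ℕ) :
    ((t.choose j : ℕ) : K) * ((j.factorial : ℕ) : K)
      = (((descPochhammer ℤ j).eval (t : ℤ) : ℤ) : K) := by
  rw [descPochhammer_eval_eq_descFactorial, Nat.descFactorial_eq_factorial_mul_choose]
  push_cast
  ring

omit [IsUltrametricDist K] in
/-- interpolation error of a binomial coefficient -/
theorem interp_choose (hK : ∀ m : ℤ, ‖(m : K)‖ = ‖(m : ℚ_[l])‖) (s : Finset ℕ) (t j : ℕ) :
    ‖((t.choose j : ℕ) : K) - ∑ i ∈ s, ((i.choose j : ℕ) : K) * L K (s.map Nat.castEmbedding) i t‖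
      ≤ (l : ℝ) ^ j ∧
    (j < s.card →
      ((t.choose j : ℕ) : K) - ∑ i ∈ s, ((i.choose j : ℕ) : K) * L K (s.map Nat.castEmbedding) i t
        = 0) := by
  have hfac : ((j.factorial : ℕ) : K) ≠ 0 := by
    intro h
    have h1 : ((j.factorial : ℤ) : K) = ((0 : ℤ) : K) := by push_cast; simpa using h
    have h2 := cast_inj hK h1
    exact Nat.factorial_ne_zero j (by exact_mod_cast h2)
  have key := interp_int hK (s.map Nat.castEmbedding) (descPochhammer ℤ j) (t : ℤ)
  have hrew : (((descPochhammer ℤ j).eval (t : ℤ) : ℤ) : K)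
      - ∑ i ∈ s.map Nat.castEmbedding, (((descPochhammer ℤ j).eval i : ℤ) : K)
        * L K (s.map Nat.castEmbedding) i t
      = (((t.choose j : ℕ) : K) - ∑ i ∈ s, ((i.choose j : ℕ) : K)
        * L K (s.map Nat.castEmbedding) i t) * ((j.factorial : ℕ) : K) := by
    rw [Finset.sum_map, sub_mul, choose_mul_factorial, Finset.sum_mul]
    congr 1
    refine Finset.sum_congr rfl fun i _ => ?_
    have := choose_mul_factorial (K := K) i j
    simp only [Nat.castEmbedding_apply]
    rw [← this]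
    ring
  rw [hrew] at key
  have hl0 : (0 : ℝ) < l := by exact_mod_cast hl.out.pos
  refine ⟨?_, ?_⟩
  · have h1 := key.1
    rw [norm_mul, norm_nat_eq hK] at h1
    have h2 := padic_factorial (l := l) j
    have hp : (0 : ℝ) < (l : ℝ) ^ j := by positivity
    set A := ‖((t.choose j : ℕ) : K) - ∑ i ∈ s, ((i.choose j : ℕ) : K)
        * L K (s.map Nat.castEmbedding) i t‖ with hA
    have hA0 : 0 ≤ A := norm_nonneg _
    have h3 : A * ((l : ℝ) ^ j)⁻¹ ≤ 1 := le_trans (mul_le_mul_of_nonneg_left h2 hA0) h1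
    rwa [← div_eq_mul_inv, div_le_one hp] at h3
  · intro hj
    have h1 := key.2 (by
      rw [degree_eq_natDegree (monic_descPochhammer ℤ j).ne_zero, descPochhammer_natDegree,
        Finset.card_map]
      exact_mod_cast hj)
    rcases mul_eq_zero.mp h1 with h | h
    · exact h
    · exact absurd h hfac

omit [IsUltrametricDist K] in
theorem norm_L_le (hK : ∀ m : ℤ, ‖(m : K)‖ = ‖(m : ℚ_[l])‖) (k : ℕ) (s : Finset ℤ)
    (hsep : ∀ x ∈ s, ∀ y ∈ s, x ≠ y → ¬ ((l : ℤ) ^ k ∣ x - y)) (i : ℤ) (hi : i ∈ s) (t : ℤ) :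
    ‖L K s i t‖ ≤ (l : ℝ) ^ (k * (s.card - 1)) := by
  have hl0 : (0 : ℝ) < l := by exact_mod_cast hl.out.pos
  rw [L, norm_prod]
  calc ∏ j ∈ s.erase i, ‖((i : K) - (j : K))⁻¹ * ((t : K) - (j : K))‖
      ≤ ∏ _j ∈ s.erase i, (l : ℝ) ^ k := by
        refine Finset.prod_le_prod (fun _ _ => norm_nonneg _) fun j hj => ?_
        have hj' := Finset.mem_erase.mp hj
        have hij := hsep i hi j hj'.2 (Ne.symm hj'.1)
        rw [← Padic.norm_int_le_pow_iff_dvd, not_le] at hij
        have h1 : ‖((i : K) - (j : K))‖ = ‖((i - j : ℤ) : ℚ_[l])‖ := by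
          rw [← hK]; push_cast; rfl
        have h2 : ‖((t : K) - (j : K))‖ ≤ 1 := by
          have := norm_int_le hK (t - j)
          push_cast at this
          exact this
        rw [norm_mul, norm_inv, h1]
        have hpos : (0 : ℝ) < (l : ℝ) ^ k := by positivity
        have h3 : ‖((i - j : ℤ) : ℚ_[l])‖⁻¹ ≤ (l : ℝ) ^ k := by
          have h4 : ((l : ℝ) ^ k)⁻¹ < ‖((i - j : ℤ) : ℚ_[l])‖ := by
            rwa [zpow_neg, zpow_natCast] at hij
          have h5 : (0 : ℝ) < ((l : ℝ) ^ k)⁻¹ := inv_pos.mpr hpos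
          have := inv_anti₀ h5 h4.le
          rwa [inv_inv] at this
        calc ‖((i - j : ℤ) : ℚ_[l])‖⁻¹ * ‖((t : K) - (j : K))‖
            ≤ (l : ℝ) ^ k * 1 := mul_le_mul h3 h2 (norm_nonneg _) hpos.le
          _ = (l : ℝ) ^ k := mul_one _
    _ = (l : ℝ) ^ (k * (s.card - 1)) := by
        rw [Finset.prod_const, Finset.card_erase_of_mem hi, ← pow_mul]

/-- **One variable lemma.** -/
theorem oneVar (hK : ∀ m : ℤ, ‖(m : K)‖ = ‖(m : ℚ_[l])‖) (e a : ℕ → K)
    (he : ∀ t, e t = ∑ j ∈ range (t + 1), ((t.choose j : ℕ) : K) * a j)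
    (r : ℕ) (S : ℝ) (hS : 0 ≤ S) (hlow : ∃ j, ‖a j‖ = S)
    (hhigh : ∀ j, r ≤ j → ‖a j‖ * (l : ℝ) ^ j ≤ S / l)
    (k : ℕ) (s : Finset ℕ) (hs : s.card = r) (hr : 0 < r)
    (hsep : ∀ x ∈ s, ∀ y ∈ s, x ≠ y → ¬ ((l : ℤ) ^ k ∣ (x : ℤ) - y))
    (ε : ℝ) (hε : ∀ x ∈ s, ‖e x‖ ≤ ε) :
    S ≤ ε * (l : ℝ) ^ (k * (r - 1)) := by
  have hl0 : (0 : ℝ) < l := by exact_mod_cast hl.out.pos
  have hl1 : (1 : ℝ) < l := by exact_mod_cast hl.out.one_lt
  have hε0 : 0 ≤ ε := by
    obtain ⟨x, hx⟩ := Finset.card_pos.mp (hs ▸ hr)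
    exact le_trans (norm_nonneg _) (hε x hx)
  set s' : Finset ℤ := s.map Nat.castEmbedding with hs'
  have hs'card : s'.card = r := by rw [hs', Finset.card_map, hs]
  have hsep' : ∀ x ∈ s', ∀ y ∈ s', x ≠ y → ¬ ((l : ℤ) ^ k ∣ x - y) := by
    intro x hx y hy hxy
    rw [hs', Finset.mem_map] at hx hy
    obtain ⟨x', hx', rfl⟩ := hx
    obtain ⟨y', hy', rfl⟩ := hy
    simp only [Nat.castEmbedding_apply] at hxy ⊢
    exact hsep x' hx' y' hy' (by intro h; exact hxy (by rw [h]))
  set B : ℝ := max (ε * (l : ℝ) ^ (k * (r - 1))) (S / l) with hB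
  have hB0 : 0 ≤ B := le_max_of_le_left (by positivity)
  -- bound for all values
  have hval : ∀ t, ‖e t‖ ≤ B := by
    intro t
    set T := max t (s.sup id) with hT
    have hxT : ∀ x ∈ s, x ≤ T := fun x hx =>
      le_trans (Finset.le_sup (f := id) hx) (le_max_right _ _)
    have hext : ∀ x, x ≤ T → e x = ∑ j ∈ range (T + 1), ((x.choose j : ℕ) : K) * a j := by
      intro x hx
      rw [he]
      refine Finset.sum_subset (by
        intro j hj; rw [Finset.mem_range] at hj ⊢; omega) ?_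
      intro j _ hj
      rw [Finset.mem_range] at hj
      rw [Nat.choose_eq_zero_of_lt (by omega)]
      simp
    have hsplit : e t = ∑ i ∈ s, e i * L K s' i t
        + ∑ j ∈ range (T + 1), (((t.choose j : ℕ) : K)
          - ∑ i ∈ s, ((i.choose j : ℕ) : K) * L K s' i t) * a j := by
      rw [hext t (le_max_left _ _)]
      have h1 : ∑ i ∈ s, e i * L K s' i t
          = ∑ j ∈ range (T + 1), (∑ i ∈ s, ((i.choose j : ℕ) : K) * L K s' i t) * a j := by
        calc ∑ i ∈ s, e i * L K s' i t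
            = ∑ i ∈ s, (∑ j ∈ range (T + 1), ((i.choose j : ℕ) : K) * a j) * L K s' i t := by
              refine Finset.sum_congr rfl fun i hi => ?_
              rw [hext i (hxT i hi)]
          _ = ∑ i ∈ s, ∑ j ∈ range (T + 1), ((i.choose j : ℕ) : K) * a j * L K s' i t := by
              refine Finset.sum_congr rfl fun i _ => ?_
              rw [Finset.sum_mul]
          _ = ∑ j ∈ range (T + 1), ∑ i ∈ s, ((i.choose j : ℕ) : K) * a j * L K s' i t :=
              Finset.sum_comm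
          _ = _ := by
              refine Finset.sum_congr rfl fun j _ => ?_
              rw [Finset.sum_mul]
              refine Finset.sum_congr rfl fun i _ => ?_
              ring
      rw [h1, ← Finset.sum_add_distrib]
      refine Finset.sum_congr rfl fun j _ => ?_
      ring
    rw [hsplit]
    refine le_trans (IsUltrametricDist.norm_add_le_max _ _) (max_le ?_ ?_)
    · refine le_trans ?_ (le_max_left _ _)
      refine IsUltrametricDist.norm_sum_le_of_forall_le_of_nonneg (by positivity) ?_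
      intro i hi
      rw [norm_mul]
      refine mul_le_mul (hε i hi) ?_ (norm_nonneg _) hε0
      have := norm_L_le hK k s' hsep' (i : ℤ) (by
        rw [hs', Finset.mem_map]
        exact ⟨i, hi, rfl⟩) (t : ℤ)
      rwa [hs'card] at this
    · refine le_trans ?_ (le_max_right _ _)
      refine IsUltrametricDist.norm_sum_le_of_forall_le_of_nonneg (by positivity) ?_
      intro j _
      have hch := interp_choose hK s t j
      by_cases hj : j < r
      · rw [hch.2 (hs ▸ hj), zero_mul, norm_zero]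
        positivity
      · rw [norm_mul, mul_comm]
        refine le_trans (mul_le_mul_of_nonneg_left hch.1 (norm_nonneg _)) ?_
        exact hhigh j (by omega)
  -- bound for all coefficients
  have hcoef : ∀ t, ‖a t‖ ≤ B := by
    intro t
    induction t using Nat.strong_induction_on with
    | _ t ih =>
      have h1 : a t = e t - ∑ j ∈ range t, ((t.choose j : ℕ) : K) * a j := by
        rw [he t, Finset.sum_range_succ, Nat.choose_self]
        push_cast
        ring
      rw [h1, sub_eq_add_neg]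
      refine le_trans (IsUltrametricDist.norm_add_le_max _ _) (max_le (hval t) ?_)
      rw [norm_neg]
      refine IsUltrametricDist.norm_sum_le_of_forall_le_of_nonneg hB0 ?_
      intro j hj
      rw [norm_mul]
      calc ‖((t.choose j : ℕ) : K)‖ * ‖a j‖ ≤ 1 * B :=
            mul_le_mul (norm_nat_le hK _) (ih j (Finset.mem_range.mp hj)) (norm_nonneg _)
              zero_le_one
        _ = B := one_mul B
  obtain ⟨j, hj⟩ := hlow
  have hSB : S ≤ B := hj ▸ hcoef j
  rcases le_max_iff.mp hSB with h | h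
  · exact h
  · have : S = 0 := by
      rw [le_div_iff₀ hl0] at h
      nlinarith
    rw [this]
    positivity

end OneVar

end MPb685PS
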