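import Pool.Agent.Lib.MP_b685ef_ag.PS.Defs
import Pool.Agent.Lib.MP_b685ef_ag.PS.OneVar

/-!
MP_b685ef_ag, power saving: the sublevel estimate for functions in a finite-dimensional
translation-stable space on a compact group.
-/

open Finset Polynomial

namespace MPb685PS

namespace SUB

/-! ### separating points -/

section sep

variable {K : Type*} [Field K] {X : Type*}

/-- functions of `E` vanishing on `Y` -/
def van (E : Submodule K (X → K)) (Y : Finset X) : Submodule K (X → K) where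
  carrier := {f | f ∈ E ∧ ∀ y ∈ Y, f y = 0}
  add_mem' := by
    rintro a b ⟨ha, ha'⟩ ⟨hb, hb'⟩
    exact ⟨E.add_mem ha hb, fun y hy => by simp [ha' y hy, hb' y hy]⟩
  zero_mem' := ⟨E.zero_mem, fun y _ => rfl⟩
  smul_mem' := by
    rintro c a ⟨ha, ha'⟩
    exact ⟨E.smul_mem c ha, fun y hy => by simp [ha' y hy]⟩

theorem exists_sep (E : Submodule K (X → K)) [FiniteDimensional K E] (Z : Set X) :
    ∃ Y : Finset X, (↑Y ⊆ Z) ∧ ∀ f ∈ E, (∀ y ∈ Y, f y = 0) → ∀ z ∈ Z, f z = 0 := by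
  classical
  have hfin : ∀ Y, FiniteDimensional K (van E Y) := fun Y =>
    Submodule.finiteDimensional_of_le (S₂ := E) (fun f hf => hf.1)
  have hex : ∃ n, ∃ Y : Finset X, (↑Y ⊆ Z) ∧ Module.finrank K (van E Y) = n :=
    ⟨_, ∅, by simp, rfl⟩
  obtain ⟨Y, hYZ, hY⟩ := Nat.find_spec hex
  refine ⟨Y, hYZ, fun f hf hfY z hz => ?_⟩
  have hle : van E (insert z Y) ≤ van E Y := fun a ha =>
    ⟨ha.1, fun y hy => ha.2 y (Finset.mem_insert_of_mem hy)⟩
  have hmin : Module.finrank K (van E Y) ≤ Module.finrank K (van E (insert z Y)) := by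
    rw [hY]
    refine Nat.find_min' hex ⟨insert z Y, ?_, rfl⟩
    rw [Finset.coe_insert]
    exact Set.insert_subset hz hYZ
  haveI := hfin Y
  have heq : van E (insert z Y) = van E Y := Submodule.eq_of_le_of_finrank_le hle hmin
  have hmem : f ∈ van E (insert z Y) := by
    rw [heq]; exact ⟨hf, hfY⟩
  exact hmem.2 z (Finset.mem_insert_self z Y)

end sep

/-! ### integral matrices -/

section integral

variable {K : Type*} [NormedField K] [IsUltrametricDist K]

/-- the unit ball as a subring. -/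
def ballRing (K : Type*) [NormedField K] [IsUltrametricDist K] : Subring K where
  carrier := {x | ‖x‖ ≤ 1}
  mul_mem' := by
    intro a b ha hb
    show ‖a * b‖ ≤ 1
    rw [norm_mul]
    exact mul_le_one₀ ha (norm_nonneg _) hb
  one_mem' := by show ‖(1 : K)‖ ≤ 1; rw [norm_one]
  add_mem' := by
    intro a b ha hb
    exact le_trans (IsUltrametricDist.norm_add_le_max a b) (max_le ha hb)
  zero_mem' := by show ‖(0 : K)‖ ≤ 1; rw [norm_zero]; exact zero_le_one
  neg_mem' := by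
    intro a ha
    show ‖-a‖ ≤ 1
    rw [norm_neg]; exact ha

theorem charpoly_coeff_le {n : Type*} [Fintype n] [DecidableEq n] (M : Matrix n n K)
    (hM : ∀ i j, ‖M i j‖ ≤ 1) (k : ℕ) : ‖M.charpoly.coeff k‖ ≤ 1 := by
  set M' : Matrix n n (ballRing K) := fun i j => ⟨M i j, hM i j⟩ with hM'
  have h1 : M = M'.map (ballRing K).subtype := by
    ext i j
    rfl
  rw [h1, Matrix.charpoly_map, coeff_map]
  exact (M'.charpoly.coeff k).2

/-- values of a functional on the orbit of an integral operator are bounded by the first ones. -/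
theorem orbit_bound {V : Type*} [AddCommGroup V] [Module K V] {n : Type*} [Fintype n]
    [DecidableEq n] (b : Module.Basis n K V) (M : Module.End K V)
    (hM : ∀ i j, ‖LinearMap.toMatrix b b M i j‖ ≤ 1) (φ : V →ₗ[K] K) (v : V) (B : ℝ)
    (hB : ∀ i < Fintype.card n, ‖φ ((M ^ i) v)‖ ≤ B) (hB0 : 0 ≤ B) (j : ℕ) :
    ‖φ ((M ^ j) v)‖ ≤ B := by
  haveI : Module.Finite K V := Module.Finite.of_basis b
  haveI : Module.Free K V := Module.Free.of_basis b
  have hch : M.charpoly = (LinearMap.toMatrix b b M).charpoly :=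
    (LinearMap.charpoly_toMatrix M b).symm
  have hmon : M.charpoly.Monic := LinearMap.charpoly_monic M
  have hdeg : M.charpoly.natDegree = Fintype.card n := by
    rw [hch, Matrix.charpoly_natDegree_eq_dim]
  have hcoef : ∀ k, ‖M.charpoly.coeff k‖ ≤ 1 := fun k => by
    rw [hch]; exact charpoly_coeff_le _ hM k
  have hCH := LinearMap.aeval_self_charpoly M
  rw [aeval_eq_sum_range, hdeg, Finset.sum_range_succ] at hCH
  have hlead : M.charpoly.coeff (Fintype.card n) = 1 := by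
    rw [← hdeg]; exact hmon
  rw [hlead, one_smul] at hCH
  have hpow : M ^ Fintype.card n = - ∑ i ∈ range (Fintype.card n), M.charpoly.coeff i • M ^ i :=
    eq_neg_of_add_eq_zero_right hCH
  induction j using Nat.strong_induction_on with
  | _ j ih =>
    by_cases hj : j < Fintype.card n
    · exact hB j hj
    · obtain ⟨m, rfl⟩ := Nat.exists_eq_add_of_le (not_lt.mp hj)
      have h1 : M ^ (Fintype.card n + m)
          = - ∑ i ∈ range (Fintype.card n), M.charpoly.coeff i • M ^ (i + m) := by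
        rw [pow_add, hpow, neg_mul, Finset.sum_mul]
        congr 1
        refine Finset.sum_congr rfl fun i _ => ?_
        rw [smul_mul_assoc, pow_add]
      rw [h1, LinearMap.neg_apply, map_neg, norm_neg, LinearMap.sum_apply, map_sum]
      refine IsUltrametricDist.norm_sum_le_of_forall_le_of_nonneg hB0 ?_
      intro i hi
      rw [LinearMap.smul_apply, map_smul, smul_eq_mul, norm_mul]
      have hi' := Finset.mem_range.mp hi
      calc ‖M.charpoly.coeff i‖ * ‖φ ((M ^ (i + m)) v)‖ ≤ 1 * B :=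
            mul_le_mul (hcoef i) (ih (i + m) (by omega)) (norm_nonneg _) zero_le_one
        _ = B := one_mul B

end integral

/-! ### translation operators -/

section trans

variable {K : Type*} [NontriviallyNormedField K] {Γ : Type*} [Group Γ]

/-- left translation on `E`. -/
def tr (E : Submodule K (Γ → K)) (hleft : ∀ f ∈ E, ∀ x : Γ, (fun y => f (x * y)) ∈ E) (u : Γ) :
    Module.End K E where
  toFun f := ⟨fun y => f.1 (u * y), hleft f.1 f.2 u⟩
  map_add' a b := by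
    ext y; rfl
  map_smul' c a := by
    ext y; rfl

theorem tr_apply (E : Submodule K (Γ → K)) (hleft : ∀ f ∈ E, ∀ x : Γ, (fun y => f (x * y)) ∈ E)
    (u : Γ) (f : E) (y : Γ) : (tr E hleft u f).1 y = f.1 (u * y) := rfl

theorem tr_pow_apply (E : Submodule K (Γ → K))
    (hleft : ∀ f ∈ E, ∀ x : Γ, (fun y => f (x * y)) ∈ E)
    (u : Γ) (t : ℕ) (f : E) (y : Γ) : (((tr E hleft u) ^ t) f).1 y = f.1 (u ^ t * y) := by
  induction t generalizing f with
  | zero => simp
  | succ t ih =>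
    rw [pow_succ, Module.End.mul_apply, ih, tr_apply, ← mul_assoc, ← pow_succ']

theorem tr_one (E : Submodule K (Γ → K))
    (hleft : ∀ f ∈ E, ∀ x : Γ, (fun y => f (x * y)) ∈ E) : tr E hleft 1 = 1 := by
  ext f y
  rw [tr_apply, one_mul]
  rfl

variable [TopologicalSpace Γ] [IsTopologicalGroup Γ]

theorem continuous_tr (E : Submodule K (Γ → K)) [FiniteDimensional K E]
    (hcont : ∀ f ∈ E, Continuous f)
    (hleft : ∀ f ∈ E, ∀ x : Γ, (fun y => f (x * y)) ∈ E) {n : Type*} [Fintype n] [DecidableEq n]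
    (b : Module.Basis n K E) (i j : n) :
    Continuous fun u : Γ => LinearMap.toMatrix b b (tr E hleft u) i j := by
  classical
  obtain ⟨Y, -, hY⟩ := exists_sep E (Set.univ : Set Γ)
  let ev : E →ₗ[K] (Y → K) :=
    { toFun := fun f y => f.1 y
      map_add' := fun _ _ => rfl
      map_smul' := fun _ _ => rfl }
  have hinj : LinearMap.ker ev = ⊥ := by
    rw [LinearMap.ker_eq_bot']
    intro f hf
    ext y
    exact hY f.1 f.2 (fun z hz => congrFun hf ⟨z, hz⟩) y (Set.mem_univ y)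
  obtain ⟨P, hP⟩ := LinearMap.exists_leftInverse_of_injective ev hinj
  have h1 : ∀ u : Γ, LinearMap.toMatrix b b (tr E hleft u) i j
      = ∑ y : Y, (b j).1 (u * y) * (b.coord i) (P (fun z => if y = z then 1 else 0)) := by
    intro u
    rw [LinearMap.toMatrix_apply]
    have h2 : tr E hleft u (b j) = P (ev (tr E hleft u (b j))) := by
      have := LinearMap.congr_fun hP (tr E hleft u (b j))
      simpa using this.symm
    rw [h2]
    have h3 := LinearMap.pi_apply_eq_sum_univ (b.coord i ∘ₗ P) (ev (tr E hleft u (b j)))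
    simp only [LinearMap.comp_apply, Module.Basis.coord_apply, smul_eq_mul] at h3
    rw [h3]
    rfl
  simp_rw [h1]
  refine continuous_finsetSum _ fun y _ => ?_
  exact ((hcont _ (b j).2).comp (continuous_mul_const (y : Γ))).mul continuous_const

theorem isOpen_near (E : Submodule K (Γ → K)) [FiniteDimensional K E]
    (hcont : ∀ f ∈ E, Continuous f)
    (hleft : ∀ f ∈ E, ∀ x : Γ, (fun y => f (x * y)) ∈ E) {n : Type*} [Fintype n] [DecidableEq n]
    (b : Module.Basis n K E) (δ : ℝ) :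
    IsOpen {u : Γ | ∀ i j, ‖LinearMap.toMatrix b b (tr E hleft u) i j
      - (1 : Matrix n n K) i j‖ < δ} := by
  simp only [Set.ofPred_forall]
  refine isOpen_iInter_of_finite fun i => isOpen_iInter_of_finite fun j => ?_
  exact isOpen_lt ((continuous_tr E hcont hleft b i j).sub continuous_const).norm
    continuous_const

end trans

/-! ### the dichotomy along one translation -/

section dich

variable {ℓ : ℕ} [hl : Fact ℓ.Prime] {K : Type*} [NontriviallyNormedField K]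
  [IsUltrametricDist K] {Γ : Type*} [Group Γ]

omit [IsUltrametricDist K] in
theorem toM_sub_one {V : Type*} [AddCommGroup V] [Module K V] {n : Type*} [Fintype n]
    [DecidableEq n] (b : Module.Basis n K V) (c : K) (T : Module.End K V) (i j : n) :
    LinearMap.toMatrix b b (c • (T - 1)) i j
      = c * (LinearMap.toMatrix b b T i j - (1 : Matrix n n K) i j) := by
  rw [LinearMap.toMatrix_apply, LinearMap.toMatrix_apply, LinearMap.smul_apply,
    LinearMap.sub_apply, map_smul, map_sub, Finsupp.smul_apply, Finsupp.sub_apply,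
    Module.End.one_apply, Module.Basis.repr_self_apply, Matrix.one_apply, smul_eq_mul]
  simp only [eq_comm]

theorem dich (hK : ∀ m : ℤ, ‖(m : K)‖ = ‖(m : ℚ_[ℓ])‖) (E : Submodule K (Γ → K))
    (hleft : ∀ f ∈ E, ∀ x : Γ, (fun y => f (x * y)) ∈ E) {r : ℕ} (hr : 0 < r)
    (b : Module.Basis (Fin r) K E) (u : Γ)
    (hu : ∀ i j, ‖LinearMap.toMatrix b b (tr E hleft u) i j
      - (1 : Matrix (Fin r) (Fin r) K) i j‖ < ((ℓ : ℝ) ^ (r + 1))⁻¹)
    (f : Γ → K) (hf : f ∈ E) (h σ : Γ) (k : ℕ) (ε : ℝ) :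
    (∀ t, ‖f (h * u ^ t * σ)‖ ≤ ε * (ℓ : ℝ) ^ (k * (r - 1))) ∨
      ((range (ℓ ^ k)).filter (fun t => ‖f (h * u ^ t * σ)‖ ≤ ε)).card < r := by
  classical
  by_contra hcon
  push Not at hcon
  obtain ⟨⟨t0, ht0⟩, hcard⟩ := hcon
  obtain ⟨s, hsub, hscard⟩ := Finset.exists_subset_card_eq hcard
  have hl0 : (0 : ℝ) < ℓ := by exact_mod_cast hl.out.pos
  have hl1 : (1 : ℝ) < ℓ := by exact_mod_cast hl.out.one_lt
  have hlK : ‖(ℓ : K)‖ = (ℓ : ℝ)⁻¹ := by
    have h1 := hK (ℓ : ℤ)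
    simp only [Int.cast_natCast] at h1
    rw [h1, Padic.norm_p]
  have hlK0 : (ℓ : K) ≠ 0 := by
    rw [← norm_pos_iff, hlK]; positivity
  set A : Module.End K E := tr E hleft u - 1 with hA
  set M : Module.End K E := ((ℓ : K) ^ (r + 1))⁻¹ • A with hM
  have hAM : A = (ℓ : K) ^ (r + 1) • M := by
    rw [hM, smul_smul, mul_inv_cancel₀ (pow_ne_zero _ hlK0), one_smul]
  have hMint : ∀ i j, ‖LinearMap.toMatrix b b M i j‖ ≤ 1 := by
    intro i j
    rw [hM, hA, toM_sub_one, norm_mul, norm_inv, norm_pow, hlK]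
    have h1 := (hu i j).le
    have h2 : (((ℓ : ℝ)⁻¹) ^ (r + 1))⁻¹ = (ℓ : ℝ) ^ (r + 1) := by
      rw [inv_pow, inv_inv]
    rw [h2]
    have h3 : (0 : ℝ) < (ℓ : ℝ) ^ (r + 1) := by positivity
    calc (ℓ : ℝ) ^ (r + 1) * ‖LinearMap.toMatrix b b (tr E hleft u) i j
          - (1 : Matrix (Fin r) (Fin r) K) i j‖
        ≤ (ℓ : ℝ) ^ (r + 1) * ((ℓ : ℝ) ^ (r + 1))⁻¹ := mul_le_mul_of_nonneg_left h1 h3.le
      _ = 1 := mul_inv_cancel₀ h3.ne'
  -- the functional and the vector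
  let φ : E →ₗ[K] K :=
    { toFun := fun f => f.1 σ
      map_add' := fun _ _ => rfl
      map_smul' := fun _ _ => rfl }
  set v : E := tr E hleft h ⟨f, hf⟩ with hv
  set e : ℕ → K := fun t => f (h * u ^ t * σ) with he
  set a : ℕ → K := fun j => φ ((A ^ j) v) with ha
  have hepow : ∀ t, e t = φ (((tr E hleft u) ^ t) v) := by
    intro t
    show f (h * u ^ t * σ) = (((tr E hleft u) ^ t) v).1 σ
    rw [tr_pow_apply, hv, tr_apply, mul_assoc]
  have hsum : ∀ t, e t = ∑ j ∈ range (t + 1), ((t.choose j : ℕ) : K) * a j := by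
    intro t
    have h1 : tr E hleft u = A + 1 := by rw [hA]; abel
    rw [hepow, h1, (Commute.one_right A).add_pow t, LinearMap.sum_apply, map_sum]
    refine Finset.sum_congr rfl fun j _ => ?_
    rw [one_pow, mul_one, Module.End.mul_apply, Module.End.natCast_apply, ← Nat.cast_smul_eq_nsmul K,
      map_smul, map_smul, smul_eq_mul]
  have hpow : ∀ j, A ^ j = ((ℓ : K) ^ ((r + 1) * j)) • M ^ j := by
    intro j
    rw [hAM, _root_.smul_pow, ← pow_mul]
  have haM : ∀ j, ‖a j‖ * (ℓ : ℝ) ^ ((r + 1) * j) = ‖φ ((M ^ j) v)‖ := by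
    intro j
    show ‖φ ((A ^ j) v)‖ * _ = _
    rw [hpow, LinearMap.smul_apply, map_smul, smul_eq_mul, norm_mul, norm_pow, hlK, inv_pow]
    have h3 : (0 : ℝ) < (ℓ : ℝ) ^ ((r + 1) * j) := by positivity
    field_simp
  obtain ⟨i0, hi0, himax⟩ := Finset.exists_max_image (range r) (fun i => ‖a i‖)
    ⟨0, Finset.mem_range.mpr hr⟩
  set S : ℝ := ‖a i0‖ with hS
  have hS0 : 0 ≤ S := norm_nonneg _
  have horb : ∀ j, ‖φ ((M ^ j) v)‖ ≤ (ℓ : ℝ) ^ ((r + 1) * (r - 1)) * S := by
    intro j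
    refine orbit_bound b M hMint φ v _ ?_ (by positivity) j
    intro i hi
    rw [Fintype.card_fin] at hi
    rw [← haM, mul_comm]
    refine mul_le_mul ?_ (himax i (Finset.mem_range.mpr hi)) (norm_nonneg _) (by positivity)
    exact pow_le_pow_right₀ hl1.le (Nat.mul_le_mul_left _ (by omega))
  have hhigh : ∀ j, r ≤ j → ‖a j‖ * (ℓ : ℝ) ^ j ≤ S / ℓ := by
    intro j hj
    rw [le_div_iff₀ hl0]
    have h1 : ‖a j‖ * (ℓ : ℝ) ^ ((r + 1) * j) ≤ (ℓ : ℝ) ^ ((r + 1) * (r - 1)) * S := by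
      rw [haM]; exact horb j
    have h2 : ‖a j‖ * (ℓ : ℝ) ^ j * ℓ * (ℓ : ℝ) ^ ((r + 1) * (r - 1))
        ≤ ‖a j‖ * (ℓ : ℝ) ^ ((r + 1) * j) := by
      have h3 : ‖a j‖ * (ℓ : ℝ) ^ j * ℓ * (ℓ : ℝ) ^ ((r + 1) * (r - 1))
          = ‖a j‖ * (ℓ : ℝ) ^ (j + 1 + (r + 1) * (r - 1)) := by
        rw [pow_add, pow_succ]; ring
      rw [h3]
      refine mul_le_mul_of_nonneg_left (pow_le_pow_right₀ hl1.le ?_) (norm_nonneg _)
      obtain ⟨r', rfl⟩ := Nat.exists_eq_succ_of_ne_zero hr.ne'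
      obtain ⟨m, rfl⟩ := Nat.exists_eq_add_of_le hj
      simp only [Nat.succ_eq_add_one, Nat.add_sub_cancel]
      nlinarith
    have h4 : (0 : ℝ) < (ℓ : ℝ) ^ ((r + 1) * (r - 1)) := by positivity
    have h5 := le_trans h2 h1
    rw [mul_comm ((ℓ : ℝ) ^ ((r + 1) * (r - 1))) S] at h5
    exact le_of_mul_le_mul_right h5 h4
  have hall : ∀ j, ‖a j‖ ≤ S := by
    intro j
    by_cases hj : j < r
    · exact himax j (Finset.mem_range.mpr hj)
    · have h1 := hhigh j (not_lt.mp hj)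
      have h2 : ‖a j‖ ≤ ‖a j‖ * (ℓ : ℝ) ^ j :=
        le_mul_of_one_le_right (norm_nonneg _) (one_le_pow₀ hl1.le)
      have h3 : S / ℓ ≤ S := div_le_self hS0 hl1.le
      linarith
  have hfin := OneVar.oneVar hK e a hsum r S hS0 ⟨i0, rfl⟩ hhigh k s hscard hr
    (by
      intro x hx y hy hxy hdvd
      have hx' := Finset.mem_range.mp (Finset.mem_filter.mp (hsub hx)).1
      have hy' := Finset.mem_range.mp (Finset.mem_filter.mp (hsub hy)).1
      apply hxy
      have h1 : ((x : ℤ) - y) = 0 := by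
        apply Int.eq_zero_of_abs_lt_dvd hdvd
        rw [abs_lt]
        have hx2 : (x : ℤ) < (ℓ : ℤ) ^ k := by exact_mod_cast hx'
        have hy2 : (y : ℤ) < (ℓ : ℤ) ^ k := by exact_mod_cast hy'
        constructor <;> omega
      omega)
    ε (fun x hx => (Finset.mem_filter.mp (hsub hx)).2)
  have hbig : ‖e t0‖ ≤ S := by
    rw [hsum]
    refine IsUltrametricDist.norm_sum_le_of_forall_le_of_nonneg hS0 ?_
    intro j _
    rw [norm_mul]
    calc ‖((t0.choose j : ℕ) : K)‖ * ‖a j‖ ≤ 1 * S :=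
          mul_le_mul (OneVar.norm_nat_le hK _) (hall j) (norm_nonneg _) zero_le_one
      _ = S := one_mul S
  exact absurd (le_trans hbig hfin) (not_le.mpr ht0)

end dich

/-! ### counting in a finite coset -/

section count

variable {K : Type*} [NormedField K] {Γ : Type*} [Group Γ]

/-- the classes of `g U0`. -/
def cls (N : Subgroup Γ) (U0 : Subgroup Γ) (g : Γ) : Set (Γ ⧸ N) :=
  QuotientGroup.mk '' {h : Γ | g⁻¹ * h ∈ U0}

/-- classes of `g U0` on which `f (h * σ)` is small for all `σ ∈ Sg`. -/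
def bad (N : Subgroup Γ) (U0 : Subgroup Γ) (g : Γ) (f : Γ → K) (Sg : Set Γ) (ε : ℝ) :
    Set (Γ ⧸ N) :=
  {y | y ∈ cls N U0 g ∧ ∀ h : Γ, g⁻¹ * h ∈ U0 → (h : Γ ⧸ N) = y → ∀ σ ∈ Sg, ‖f (h * σ)‖ ≤ ε}

theorem cls_mul (N : Subgroup Γ) [N.Normal] (U0 : Subgroup Γ) (g : Γ) {u : Γ} (hu : u ∈ U0)
    {y : Γ ⧸ N} (hy : y ∈ cls N U0 g) : y * (u : Γ ⧸ N) ∈ cls N U0 g := by
  obtain ⟨h, hh, rfl⟩ := hy
  refine ⟨h * u, ?_, rfl⟩
  show g⁻¹ * (h * u) ∈ U0
  rw [← mul_assoc]
  exact U0.mul_mem hh hu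

theorem step (N : Subgroup Γ) [N.Normal] [N.FiniteIndex] (U0 : Subgroup Γ) (g : Γ) (f : Γ → K)
    (Sg : Set Γ) (h1S : (1 : Γ) ∈ Sg) (ε B : ℝ) (n r : ℕ) (hn : 2 ≤ n) (hr : 0 < r) (u : Γ)
    (hu : u ∈ U0)
    (hd : ∀ h σ : Γ, (∀ t, ‖f (h * u ^ t * σ)‖ ≤ ε * B) ∨
      ((range n).filter (fun t => ‖f (h * u ^ t * σ)‖ ≤ ε)).card < r) :
    (bad N U0 g f Sg ε).ncard * n ≤
      (bad N U0 g f (insert u Sg) (ε * B)).ncard * n + (r - 1) * (cls N U0 g).ncard := by
  classical
  haveI : Fintype (Γ ⧸ N) := Fintype.ofFinite _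
  have hncard : ∀ s : Set (Γ ⧸ N), s.ncard = (Finset.univ.filter (fun y => y ∈ s)).card := by
    intro s
    rw [Set.ncard_eq_toFinset_card' s]
    congr 1
    ext y
    simp
  -- the number of times at which `y u ^ t` is bad
  have hcount : (bad N U0 g f Sg ε).ncard * n
      = ∑ y : Γ ⧸ N, ((range n).filter (fun t => y * (u : Γ ⧸ N) ^ t ∈ bad N U0 g f Sg ε)).card := by
    have h1 : ∀ t : ℕ, (Finset.univ.filter
        (fun y : Γ ⧸ N => y * (u : Γ ⧸ N) ^ t ∈ bad N U0 g f Sg ε)).card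
        = (bad N U0 g f Sg ε).ncard := by
      intro t
      rw [hncard]
      refine Finset.card_bij (fun y _ => y * (u : Γ ⧸ N) ^ t) ?_ ?_ ?_
      · intro y hy
        simp only [Finset.mem_filter, Finset.mem_univ, true_and] at hy ⊢
        exact hy
      · intro y _ z _ hyz
        exact mul_right_cancel hyz
      · intro z hz
        simp only [Finset.mem_filter, Finset.mem_univ, true_and] at hz
        refine ⟨z * ((u : Γ ⧸ N) ^ t)⁻¹, ?_, by simp⟩
        simp only [Finset.mem_filter, Finset.mem_univ, true_and, inv_mul_cancel_right]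
        exact hz
    calc (bad N U0 g f Sg ε).ncard * n
        = ∑ _t ∈ range n, (bad N U0 g f Sg ε).ncard := by
          rw [Finset.sum_const, Finset.card_range, smul_eq_mul, mul_comm]
      _ = ∑ t ∈ range n, (Finset.univ.filter
        (fun y : Γ ⧸ N => y * (u : Γ ⧸ N) ^ t ∈ bad N U0 g f Sg ε)).card :=
          Finset.sum_congr rfl fun t _ => (h1 t).symm
      _ = _ := by
          simp_rw [Finset.card_filter]
          exact Finset.sum_comm
  have hle : ∀ y : Γ ⧸ N,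
      ((range n).filter (fun t => y * (u : Γ ⧸ N) ^ t ∈ bad N U0 g f Sg ε)).card
      ≤ (if y ∈ bad N U0 g f (insert u Sg) (ε * B) then n else 0)
        + (if y ∈ cls N U0 g then r - 1 else 0) := by
    intro y
    by_cases hy' : y ∈ bad N U0 g f (insert u Sg) (ε * B)
    · rw [if_pos hy']
      refine le_trans (le_trans (Finset.card_filter_le _ _) ?_) (Nat.le_add_right _ _)
      rw [Finset.card_range]
    · rw [if_neg hy', zero_add]
      by_cases hy : y ∈ cls N U0 g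
      · rw [if_pos hy]
        have hex : ∃ h : Γ, g⁻¹ * h ∈ U0 ∧ (h : Γ ⧸ N) = y ∧ ∃ σ ∈ insert u Sg,
            ε * B < ‖f (h * σ)‖ := by
          by_contra hcon
          push Not at hcon
          exact hy' ⟨hy, fun h hh hhy σ hσ => hcon h hh hhy σ hσ⟩
        obtain ⟨h, hh, hhy, σ, hσ, hbig⟩ := hex
        -- choose the function along which the dichotomy is applied
        obtain ⟨σ', hσ', t', ht'⟩ : ∃ σ' ∈ Sg, ∃ t', h * σ = h * u ^ t' * σ' := by
          rcases hσ with rfl | hσ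
          · exact ⟨1, h1S, 1, by simp⟩
          · exact ⟨σ, hσ, 0, by simp⟩
        rcases hd h σ' with hall | hfew
        · exact absurd (hall t') (by rw [← ht']; exact not_le.mpr hbig)
        · have hsub : (range n).filter (fun t => y * (u : Γ ⧸ N) ^ t ∈ bad N U0 g f Sg ε)
              ⊆ (range n).filter (fun t => ‖f (h * u ^ t * σ')‖ ≤ ε) := by
            intro t ht
            rw [Finset.mem_filter] at ht ⊢
            refine ⟨ht.1, ?_⟩
            refine ht.2.2 (h * u ^ t) ?_ ?_ σ' hσ'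
            · rw [← mul_assoc]
              exact U0.mul_mem hh (U0.pow_mem hu t)
            · rw [← hhy]; rfl
          have := Finset.card_le_card hsub
          omega
      · rw [if_neg hy]
        rw [Nat.le_zero, Finset.card_eq_zero, Finset.filter_eq_empty_iff]
        intro t _ ht
        apply hy
        have h2 := cls_mul N U0 g (U0.inv_mem (U0.pow_mem hu t)) ht.1
        have h3 : y * (u : Γ ⧸ N) ^ t * ((((u ^ t)⁻¹ : Γ)) : Γ ⧸ N) = y := by
          have : ((((u ^ t)⁻¹ : Γ)) : Γ ⧸ N) = ((u : Γ ⧸ N) ^ t)⁻¹ := rfl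
          rw [this]; simp
        rwa [h3] at h2
  rw [hcount]
  refine le_trans (Finset.sum_le_sum fun y _ => hle y) ?_
  rw [Finset.sum_add_distrib, ← Finset.sum_filter, ← Finset.sum_filter, Finset.sum_const,
    Finset.sum_const, smul_eq_mul, smul_eq_mul, ← hncard, ← hncard, mul_comm (r - 1)]

theorem steps (N : Subgroup Γ) [N.Normal] [N.FiniteIndex] (U0 : Subgroup Γ) (g : Γ) (f : Γ → K)
    (B : ℝ) (n r : ℕ) (hn : 2 ≤ n) (hr : 0 < r) (us : List Γ) :
    ∀ (Sg : Set Γ) (_ : (1 : Γ) ∈ Sg) (ε : ℝ)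
    (_ : ∀ u ∈ us, u ∈ U0)
    (_ : ∀ u ∈ us, ∀ (ε : ℝ) (h σ : Γ), (∀ t, ‖f (h * u ^ t * σ)‖ ≤ ε * B) ∨
      ((range n).filter (fun t => ‖f (h * u ^ t * σ)‖ ≤ ε)).card < r),
    (bad N U0 g f Sg ε).ncard * n ≤
      (bad N U0 g f (Sg ∪ {u | u ∈ us}) (ε * B ^ us.length)).ncard * n
        + us.length * ((r - 1) * (cls N U0 g).ncard) := by
  induction us with
  | nil =>
    intro Sg h1 ε _ _
    simp
  | cons u us ih =>
    intro Sg h1 ε hU hd
    have hs := step N U0 g f Sg h1 ε B n r hn hr u (hU u List.mem_cons_self)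
      (hd u List.mem_cons_self ε)
    have hi := ih (insert u Sg) (Set.mem_insert_of_mem _ h1) (ε * B)
      (fun v hv => hU v (List.mem_cons_of_mem _ hv))
      (fun v hv => hd v (List.mem_cons_of_mem _ hv))
    have hset : insert u Sg ∪ {v | v ∈ us} = Sg ∪ {v | v ∈ u :: us} := by
      ext v
      simp only [Set.mem_union, Set.mem_insert_iff, Set.mem_ofPred_eq, List.mem_cons]
      tauto
    have hexp : ε * B * B ^ us.length = ε * B ^ (u :: us).length := by
      rw [List.length_cons, pow_succ]; ring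
    rw [hset, hexp] at hi
    rw [List.length_cons] at hi ⊢
    rw [add_mul, one_mul]
    linarith

end count

end SUB

open SUB in
theorem specSUB {ℓ : ℕ} [Fact ℓ.Prime] {K : Type*} [NontriviallyNormedField K]
    [NormedAlgebra ℚ_[ℓ] K] [IsUltrametricDist K]
    {Γ : Type*} [Group Γ] [TopologicalSpace Γ] [IsTopologicalGroup Γ] [CompactSpace Γ]
    (E : Submodule K (Γ → K)) [FiniteDimensional K E] (hcont : ∀ f ∈ E, Continuous f)
    (hleft : ∀ f ∈ E, ∀ x : Γ, (fun y => f (x * y)) ∈ E)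
    (U0 : Subgroup Γ) (hU0 : IsClosed (U0 : Set Γ)) (g : Γ) (f : Γ → K) (hf : f ∈ E)
    (hne : ∀ u ∈ U0, ∀ O : Set Γ, IsOpen O → (1 : Γ) ∈ O → ∃ u' ∈ U0, u' ∈ O ∧ f (g * u * u') ≠ 0) :
    ∃ c : ℝ, 0 < c ∧ ∃ κ C : ℕ, ∀ t : ℕ, ∀ (N : Subgroup Γ) [N.Normal] [N.FiniteIndex],
      ∀ A : Set (Γ ⧸ N), A ⊆ QuotientGroup.mk '' {h : Γ | g⁻¹ * h ∈ U0} →
        (∀ h : Γ, g⁻¹ * h ∈ U0 → (h : Γ ⧸ N) ∈ A → ‖f h‖ ≤ c * ((ℓ : ℝ) ^ (κ * t))⁻¹) →
        A.ncard * ℓ ^ t ≤ C * ((QuotientGroup.mk '' (U0 : Set Γ)) : Set (Γ ⧸ N)).ncard := by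
  classical
  have hℓ : Fact ℓ.Prime := inferInstance
  have hK : ∀ m : ℤ, ‖(m : K)‖ = ‖(m : ℚ_[ℓ])‖ := by
    intro m
    rw [← map_intCast (algebraMap ℚ_[ℓ] K) m, norm_algebraMap']
  have hl0 : (0 : ℝ) < ℓ := by exact_mod_cast hℓ.out.pos
  set r := Module.finrank K E with hrdef
  have hr : 0 < r := by
    obtain ⟨u', -, -, hu'⟩ := hne 1 U0.one_mem Set.univ isOpen_univ (Set.mem_univ _)
    rw [hrdef, Module.finrank_pos_iff_exists_ne_zero]
    refine ⟨⟨f, hf⟩, fun h => hu' ?_⟩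
    have : f = 0 := congrArg Subtype.val h
    rw [this]; rfl
  set b : Module.Basis (Fin r) K E := Module.finBasis K E with hb
  set O : Set Γ := {u : Γ | ∀ i j, ‖LinearMap.toMatrix b b (tr E hleft u) i j
      - (1 : Matrix (Fin r) (Fin r) K) i j‖ < ((ℓ : ℝ) ^ (r + 1))⁻¹} with hO
  have hOo : IsOpen O := isOpen_near E hcont hleft b _
  have hO1 : (1 : Γ) ∈ O := by
    intro i j
    rw [tr_one, LinearMap.toMatrix_one, sub_self, norm_zero]
    positivity
  obtain ⟨Y, hYsub, hY⟩ := exists_sep E ((U0 : Set Γ) ∩ O)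
  -- the compact coset
  set S : Set Γ := {h : Γ | g⁻¹ * h ∈ U0} with hS
  have hScl : IsClosed S := hU0.preimage (continuous_const_mul g⁻¹)
  have hSc : IsCompact S := hScl.isCompact
  have hSne : S.Nonempty := ⟨g, by show g⁻¹ * g ∈ U0; simp [U0.one_mem]⟩
  have hFc : Continuous fun h : Γ => ∑ y ∈ Y, ‖f (h * y)‖ :=
    continuous_finsetSum _ fun y _ => ((hcont f hf).comp (continuous_mul_const y)).norm
  obtain ⟨h0, hh0, hmin⟩ := hSc.exists_isMinOn hSne hFc.continuousOn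
  set c1 : ℝ := ∑ y ∈ Y, ‖f (h0 * y)‖ with hc1
  have hc1pos : 0 < c1 := by
    have h0nn : 0 ≤ c1 := Finset.sum_nonneg fun _ _ => norm_nonneg _
    refine lt_of_le_of_ne h0nn fun heq => ?_
    have hz : ∀ y ∈ Y, f (h0 * y) = 0 := by
      intro y hy
      have := (Finset.sum_eq_zero_iff_of_nonneg (fun y _ => norm_nonneg (f (h0 * y)))).mp
        heq.symm y hy
      exact norm_eq_zero.mp this
    have hz2 := hY (fun y => f (h0 * y)) (hleft f hf h0) hz
    obtain ⟨u', hu', hu'O, hu'f⟩ := hne (g⁻¹ * h0) hh0 O hOo hO1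
    apply hu'f
    have := hz2 u' ⟨hu', hu'O⟩
    rw [mul_inv_cancel_left]
    exact this
  set R := Y.card with hR
  set c : ℝ := c1 / (R + 1) with hc
  have hcpos : 0 < c := by positivity
  refine ⟨c, hcpos, (r - 1) * R, R * (r - 1) + 1, ?_⟩
  intro t N _ _ A hA hsmall
  haveI : Finite (Γ ⧸ N) := inferInstance
  -- the classes of `g U0` and of `U0` are equinumerous
  have hcls : (cls N U0 g).ncard = ((QuotientGroup.mk '' (U0 : Set Γ)) : Set (Γ ⧸ N)).ncard := by
    have : cls N U0 g = (fun y => (g : Γ ⧸ N) * y) '' (QuotientGroup.mk '' (U0 : Set Γ)) := by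
      ext y
      constructor
      · rintro ⟨h, hh, rfl⟩
        refine ⟨_, ⟨g⁻¹ * h, hh, rfl⟩, ?_⟩
        show ((g * (g⁻¹ * h) : Γ) : Γ ⧸ N) = _
        rw [mul_inv_cancel_left]
      · rintro ⟨_, ⟨u, hu, rfl⟩, rfl⟩
        refine ⟨g * u, ?_, rfl⟩
        show g⁻¹ * (g * u) ∈ U0
        rw [inv_mul_cancel_left]
        exact hu
    rw [this, Set.ncard_image_of_injective _ (mul_right_injective _)]
  have hAcls : A ⊆ cls N U0 g := hA
  by_cases ht : t = 0
  · subst ht
    rw [pow_zero, mul_one, ← hcls]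
    have h1 := Set.ncard_le_ncard hAcls (Set.toFinite _)
    exact le_trans h1 (Nat.le_mul_of_pos_left _ (by omega))
  -- main case
  have hn : 2 ≤ ℓ ^ t := by
    calc 2 ≤ ℓ := hℓ.out.two_le
      _ = ℓ ^ 1 := (pow_one _).symm
      _ ≤ ℓ ^ t := Nat.pow_le_pow_right hℓ.out.pos (by omega)
  have hsteps := steps N U0 g f ((ℓ : ℝ) ^ (t * (r - 1))) (ℓ ^ t) r hn hr Y.toList {1} rfl
    (c * ((ℓ : ℝ) ^ ((r - 1) * R * t))⁻¹)
    (fun u hu => (hYsub (by simpa using hu)).1)
    (fun u hu ε h σ => dich hK E hleft hr b u (hYsub (by simpa using hu)).2 f hf h σ t ε)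
  have hsubA : A ⊆ bad N U0 g f {1} (c * ((ℓ : ℝ) ^ ((r - 1) * R * t))⁻¹) := by
    intro y hy
    refine ⟨hAcls hy, fun h hh hhy σ hσ => ?_⟩
    rw [Set.mem_singleton_iff] at hσ
    subst hσ
    rw [mul_one]
    exact hsmall h hh (hhy ▸ hy)
  have hεR : c * ((ℓ : ℝ) ^ ((r - 1) * R * t))⁻¹ * ((ℓ : ℝ) ^ (t * (r - 1))) ^ Y.toList.length
      = c := by
    rw [Finset.length_toList, ← pow_mul, mul_assoc]
    have : (r - 1) * R * t = t * (r - 1) * Y.card := by rw [hR]; ring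
    rw [this, inv_mul_cancel₀ (by positivity), mul_one]
  rw [hεR] at hsteps
  have hempty : bad N U0 g f ({1} ∪ {u | u ∈ Y.toList}) c = ∅ := by
    ext y
    simp only [Set.mem_empty_iff_false, iff_false]
    rintro ⟨⟨h, hh, rfl⟩, hbad⟩
    have h1 : ∑ y ∈ Y, ‖f (h * y)‖ ≤ ∑ _y ∈ Y, c :=
      Finset.sum_le_sum fun y hy => hbad h hh rfl y (Or.inr (by simpa using hy))
    rw [Finset.sum_const, nsmul_eq_mul] at h1
    have h2 : c1 ≤ ∑ y ∈ Y, ‖f (h * y)‖ := hmin hh
    have h3 : (R : ℝ) * c < c1 := by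
      rw [hc, ← mul_div_assoc, div_lt_iff₀ (by positivity)]
      nlinarith
    linarith
  rw [hempty, Set.ncard_empty, zero_mul, zero_add, Finset.length_toList, hcls] at hsteps
  have h1 := Set.ncard_le_ncard hsubA (Set.toFinite _)
  calc A.ncard * ℓ ^ t
      ≤ (bad N U0 g f {1} (c * ((ℓ : ℝ) ^ ((r - 1) * R * t))⁻¹)).ncard * ℓ ^ t :=
        Nat.mul_le_mul_right _ h1
    _ ≤ _ := hsteps
    _ ≤ _ := by
        rw [← mul_assoc, hR]
        exact Nat.mul_le_mul_right _ (Nat.le_succ _)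

end MPb685PS
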