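import Pool.Agent.Lib.MP_b685ef_ag.PS.Defs
import Pool.Agent.Lib.MP_b685ef_ag.ZO.TA
import Pool.Agent.Lib.MP_b685ef_ag.ZO.ENV
import Pool.Agent.Lib.MP_b685ef_ag.PS.SUB
import Pool.Agent.Lib.MP_b685ef_ag.PS.STA
import Pool.Agent.Lib.MP_b685ef_ag.PS.HAD
import Pool.Agent.Lib.MP_b685ef_ag.PS.NUM
import Pool.Agent.Lib.MP_b685ef_ag.PS.LEV
import Pool.Agent.Lib.MP_b685ef_ag.PS.HKL

/-!
# MP_b685ef_ag, power saving: the case where the central element acts as a scalar (module SCA)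
-/

open MPb685ZO Polynomial
namespace MPb685PS.SCA

variable {K : Type*} [Field K] {V : Type*} [AddCommGroup V] [Module K V]
  {Γ : Type*} [Group Γ]

/-- the elements of integral degree. -/
def WW (Γ0 : Subgroup Γ) [Γ0.Normal] (F : Γ) : Subgroup Γ :=
  (Subgroup.zpowers (F : Γ ⧸ Γ0)).comap (QuotientGroup.mk' Γ0)

theorem mem_WW {Γ0 : Subgroup Γ} [Γ0.Normal] {F g : Γ} :
    g ∈ WW Γ0 F ↔ ∃ n : ℤ, (F ^ n)⁻¹ * g ∈ Γ0 := by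
  unfold WW
  rw [Subgroup.mem_comap, Subgroup.mem_zpowers_iff]
  constructor
  · rintro ⟨n, hn⟩
    refine ⟨n, ?_⟩
    rw [← QuotientGroup.eq]
    simpa using hn
  · rintro ⟨n, hn⟩
    refine ⟨n, ?_⟩
    rw [← QuotientGroup.eq] at hn
    simpa using hn

theorem degSet_subset_WW {Γ0 : Subgroup Γ} [Γ0.Normal] {F g : Γ} {n : ℕ}
    (h : g ∈ degSet Γ0 F n) : g ∈ WW Γ0 F :=
  mem_WW.2 ⟨n, by simpa [degSet] using h⟩

/-- the subgroup `U0 ⟨z⟩`, up to the kernel of `ρ`. -/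
def UU (ρ : Representation K Γ V) (Γ0 : Subgroup Γ) [Γ0.Normal] (F : Γ) (U0 : Subgroup Γ)
    (μ : K) (hμ : μ ≠ 0) : Subgroup Γ where
  carrier := {g | g ∈ WW Γ0 F ∧ ∃ j : ℤ, ∃ u ∈ U0, ρ g = μ ^ j • ρ u}
  one_mem' := ⟨one_mem _, 0, 1, one_mem _, by simp⟩
  mul_mem' := by
    rintro a b ⟨ha, j, u, hu, h1⟩ ⟨hb, k, v, hv, h2⟩
    refine ⟨mul_mem ha hb, j + k, u * v, mul_mem hu hv, ?_⟩
    rw [map_mul, h1, h2, map_mul, zpow_add₀ hμ, smul_mul_smul_comm]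
  inv_mem' := by
    rintro a ⟨ha, j, u, hu, h1⟩
    refine ⟨inv_mem ha, -j, u⁻¹, inv_mem hu, ?_⟩
    have e1 : ρ a⁻¹ * ρ a = 1 := by rw [← map_mul]; simp
    have e2 : ρ a * (μ ^ (-j) • ρ u⁻¹) = 1 := by
      rw [h1, smul_mul_smul_comm, ← map_mul, ← zpow_add₀ hμ]; simp
    calc ρ a⁻¹ = ρ a⁻¹ * (ρ a * (μ ^ (-j) • ρ u⁻¹)) := by rw [e2, mul_one]
      _ = _ := by rw [← mul_assoc, e1, one_mul]

theorem UU_normal (ρ : Representation K Γ V) (Γ0 : Subgroup Γ) [Γ0.Normal] (F : Γ)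
    (U0 : Subgroup Γ) [U0.Normal] (μ : K) (hμ : μ ≠ 0) :
    ((UU ρ Γ0 F U0 μ hμ).subgroupOf (WW Γ0 F)).Normal := by
  constructor
  rintro ⟨a, ha⟩ hn ⟨g, hg⟩
  rw [Subgroup.mem_subgroupOf] at hn ⊢
  obtain ⟨h1, j, u, hu, h2⟩ := hn
  refine ⟨?_, j, g * u * g⁻¹, ?_, ?_⟩
  · exact mul_mem (mul_mem hg h1) (inv_mem hg)
  · exact Subgroup.Normal.conj_mem inferInstance u hu g
  · simp only [Subgroup.coe_mul, InvMemClass.coe_inv, map_mul] at h2 ⊢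
    rw [h2]
    simp

theorem finiteIndex_of_reps {G : Type*} [Group G] (H : Subgroup G) (T : Set G) (hT : T.Finite)
    (h : ∀ g, ∃ t ∈ T, t⁻¹ * g ∈ H) : H.FiniteIndex := by
  have : Finite T := hT
  have : Finite (G ⧸ H) := by
    refine Finite.of_surjective (fun t : T => ((t : G) : G ⧸ H)) ?_
    intro x
    obtain ⟨g, rfl⟩ := QuotientGroup.mk_surjective x
    obtain ⟨t, ht, h1⟩ := h g
    exact ⟨⟨t, ht⟩, QuotientGroup.eq.2 h1⟩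
  exact Subgroup.finiteIndex_of_finite_quotient

theorem rho_zpow (ρ : Representation K Γ V) (z : Γ) (μ : K) (hμ0 : μ ≠ 0) (hμ : ρ z = μ • 1)
    (j : ℤ) : ρ (z ^ j) = μ ^ j • 1 := by
  have hinv : ρ z⁻¹ = μ⁻¹ • 1 := by
    have e1 : ρ z⁻¹ * ρ z = 1 := by rw [← map_mul]; simp
    calc ρ z⁻¹ = ρ z⁻¹ * (ρ z * (μ⁻¹ • 1)) := by
          rw [hμ, smul_mul_smul_comm, mul_inv_cancel₀ hμ0]; simp
      _ = _ := by rw [← mul_assoc, e1, one_mul]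
  have hnat : ∀ n : ℕ, ρ (z ^ n) = μ ^ n • 1 := by
    intro n
    rw [map_pow, hμ, _root_.smul_pow, one_pow]
  have hnat' : ∀ n : ℕ, ρ (z⁻¹ ^ n) = μ⁻¹ ^ n • 1 := by
    intro n
    rw [map_pow, hinv, _root_.smul_pow, one_pow]
  obtain ⟨n, rfl | rfl⟩ := j.eq_nat_or_neg
  · rw [zpow_natCast, zpow_natCast, hnat]
  · rw [zpow_neg, zpow_neg, zpow_natCast, zpow_natCast, ← inv_pow, ← inv_pow, hnat']

theorem reps (ρ : Representation K Γ V) (Γ0 : Subgroup Γ) [Γ0.Normal] (F : Γ) (U0 : Subgroup Γ)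
    (z : Γ) (m : ℕ) (hm : 1 ≤ m) (hz : z ∈ degSet Γ0 F m) (μ : K) (hμ0 : μ ≠ 0)
    (hμ : ρ z = μ • 1) (R : Set Γ) (hR : R.Finite) (hR0 : R ⊆ Γ0)
    (hRU : ∀ γ ∈ Γ0, ∃ r ∈ R, r⁻¹ * γ ∈ U0) :
    ∃ T : Set Γ, T.Finite ∧ T ⊆ WW Γ0 F ∧
      ∀ g ∈ WW Γ0 F, ∃ t ∈ T, ∃ j : ℤ, ∃ u ∈ U0, ρ g = μ ^ j • ρ (t * u) := by
  refine ⟨Set.image2 (fun (i : ℕ) r => F ^ i * r) (Set.Iio m) R, ?_, ?_, ?_⟩
  · exact Set.Finite.image2 _ (Set.finite_Iio m) hR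
  · rintro _ ⟨i, _, r, hr, rfl⟩
    refine mem_WW.2 ⟨i, ?_⟩
    simpa using hR0 hr
  · intro g hg
    obtain ⟨n, hn⟩ := mem_WW.1 hg
    have hmZ : (0 : ℤ) < m := by exact_mod_cast hm
    set j : ℤ := n / m with hj
    obtain ⟨i, hi⟩ := Int.eq_ofNat_of_zero_le (Int.emod_nonneg n hmZ.ne')
    have him : i < m := by
      have := Int.emod_lt_of_pos n hmZ
      omega
    have hnij : n = m * j + i := by
      rw [← hi]; exact (Int.mul_ediv_add_emod n m).symm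
    have hzq : (z : Γ ⧸ Γ0) = (F : Γ ⧸ Γ0) ^ m := by
      have : (F ^ m)⁻¹ * z ∈ Γ0 := hz
      rw [← QuotientGroup.eq] at this
      simpa using this.symm
    have hgq : (g : Γ ⧸ Γ0) = (F : Γ ⧸ Γ0) ^ n := by
      rw [← QuotientGroup.eq] at hn
      simpa using hn.symm
    have hγ : (F ^ i)⁻¹ * ((z ^ j)⁻¹ * g) ∈ Γ0 := by
      rw [← QuotientGroup.eq_one_iff]
      have : ((((F ^ i)⁻¹ * ((z ^ j)⁻¹ * g) : Γ)) : Γ ⧸ Γ0)
          = ((F : Γ ⧸ Γ0) ^ i)⁻¹ * (((z : Γ ⧸ Γ0) ^ j)⁻¹ * (g : Γ ⧸ Γ0)) := by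
        simp
      rw [this, hgq, hzq, hnij, zpow_add, zpow_mul, zpow_natCast, zpow_natCast,
        inv_mul_cancel_left, inv_mul_cancel]
    obtain ⟨r, hr, hu⟩ := hRU _ hγ
    refine ⟨F ^ i * r, ⟨i, him, r, hr, rfl⟩, j, r⁻¹ * ((F ^ i)⁻¹ * ((z ^ j)⁻¹ * g)), hu, ?_⟩
    have hg' : g = z ^ j * (F ^ i * r * (r⁻¹ * ((F ^ i)⁻¹ * ((z ^ j)⁻¹ * g)))) := by group
    conv_lhs => rw [hg', map_mul, rho_zpow ρ z μ hμ0 hμ j]
    simp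

theorem UU_finiteIndex (ρ : Representation K Γ V) (Γ0 : Subgroup Γ) [Γ0.Normal] (F : Γ)
    (U0 : Subgroup Γ)
    (z : Γ) (m : ℕ) (hm : 1 ≤ m) (hz : z ∈ degSet Γ0 F m) (μ : K) (hμ0 : μ ≠ 0)
    (hμ : ρ z = μ • 1) (R : Set Γ) (hR : R.Finite) (hR0 : R ⊆ Γ0)
    (hRU : ∀ γ ∈ Γ0, ∃ r ∈ R, r⁻¹ * γ ∈ U0) :
    ((UU ρ Γ0 F U0 μ hμ0).subgroupOf (WW Γ0 F)).FiniteIndex := by
  obtain ⟨T, hT, hTW, hTU⟩ := reps ρ Γ0 F U0 z m hm hz μ hμ0 hμ R hR hR0 hRU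
  refine finiteIndex_of_reps _ {w : WW Γ0 F | (w : Γ) ∈ T} (hT.preimage
    (Subtype.val_injective.injOn)) ?_
  rintro ⟨g, hg⟩
  obtain ⟨t, ht, j, u, hu, h1⟩ := hTU g hg
  refine ⟨⟨t, hTW ht⟩, ht, ?_⟩
  rw [Subgroup.mem_subgroupOf]
  refine ⟨mul_mem (inv_mem (hTW ht)) hg, j, u, hu, ?_⟩
  show ρ (t⁻¹ * g) = _
  rw [map_mul, h1, map_mul, mul_smul_comm, ← mul_assoc, ← map_mul]
  simp

/-- Theorem A for the group of elements of integral degree, when `z` acts as a scalar. -/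
theorem claim1 [CharZero K] [FiniteDimensional K V] (ρ : Representation K Γ V) (Γ0 : Subgroup Γ)
    [Γ0.Normal] (F : Γ) (h0 : SSOn ρ (Γ0 : Set Γ)) (U0 : Subgroup Γ) [U0.Normal]
    (z : Γ) (m : ℕ) (hm : 1 ≤ m) (hz : z ∈ degSet Γ0 F m) (μ : K) (hμ0 : μ ≠ 0)
    (hμ : ρ z = μ • 1) (R : Set Γ) (hR : R.Finite) (hR0 : R ⊆ Γ0)
    (hRU : ∀ γ ∈ Γ0, ∃ r ∈ R, r⁻¹ * γ ∈ U0) (w : Γ) (hw : w ∈ WW Γ0 F)
    (hmax : ∀ u ∈ U0, nEig (ρ (w * u)) ≤ nEig (ρ w)) : Module.End.IsSemisimple (ρ w) := by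
  let ρW : Representation K (WW Γ0 F) V := ρ.comp (WW Γ0 F).subtype
  have hΓW : Γ0 ≤ WW Γ0 F := fun g hg => mem_WW.2 ⟨0, by simpa using hg⟩
  have hzW : z ∈ WW Γ0 F := degSet_subset_WW hz
  have h0W : SSOn ρW ((Γ0.subgroupOf (WW Γ0 F) : Subgroup (WW Γ0 F)) : Set (WW Γ0 F)) := by
    intro W' hW'
    obtain ⟨W'', h1, h2⟩ := h0 W' (fun g hg w hw => hW' ⟨g, hΓW hg⟩ hg w hw)
    exact ⟨W'', fun g hg w hw => h1 g.1 hg w hw, h2⟩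
  have hss : SSOn ρW Set.univ := by
    have := UU_finiteIndex ρ Γ0 F Γ0 z m hm hz μ hμ0 hμ {1} (Set.finite_singleton 1)
      (by simp) (fun γ hγ => ⟨1, rfl, by simpa using hγ⟩)
    refine specP1' ρW (Γ0.subgroupOf (WW Γ0 F)) h0W ⟨z, hzW⟩ ?_
      ((UU ρ Γ0 F Γ0 μ hμ0).subgroupOf (WW Γ0 F)) ?_
    · show Module.End.IsSemisimple (ρ z)
      rw [hμ]
      exact Module.End.IsSemisimple_smul μ Module.End.isSemisimple_id
    · rintro W' hW' _ ⟨g, hg⟩ hgU v hv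
      obtain ⟨_, j, γ, hγ, h1⟩ := hgU
      show ρ g v ∈ W'
      have h1' : ρ g = μ ^ j • ρ γ := h1
      rw [h1', LinearMap.smul_apply]
      exact W'.smul_mem _ (hW' ⟨γ, hΓW hγ⟩ hγ v hv)
  have := UU_normal ρ Γ0 F U0 μ hμ0
  have := UU_finiteIndex ρ Γ0 F U0 z m hm hz μ hμ0 hμ R hR hR0 hRU
  refine theoremA ρW hss ((UU ρ Γ0 F U0 μ hμ0).subgroupOf (WW Γ0 F)) ⟨w, hw⟩ ?_
  rintro ⟨u, hu⟩ ⟨_, j, v, hv, h1⟩
  show nEig (ρ (w * u)) ≤ nEig (ρ w)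
  have h1' : ρ u = μ ^ j • ρ v := h1
  rw [map_mul, h1', mul_smul_comm, ← map_mul, (specHKL _).2.2.2.2 _ (zpow_ne_zero j hμ0)]
  exact hmax v hv

theorem exists_max [CharZero K] [FiniteDimensional K V] (ρ : Representation K Γ V)
    (U0 : Subgroup Γ) (w : Γ) :
    ∃ u ∈ U0, ∀ u' ∈ U0, nEig (ρ (w * u')) ≤ nEig (ρ (w * u)) := by
  have hb : ∃ B, ∀ x ∈ {k | ∃ u ∈ U0, nEig (ρ (w * u)) = k}, x ≤ B := by
    refine ⟨Module.finrank K V, ?_⟩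
    rintro _ ⟨u, _, rfl⟩
    exact (specHKL _).2.2.1
  have hne : {k | ∃ u ∈ U0, nEig (ρ (w * u)) = k}.Nonempty := ⟨_, 1, one_mem _, rfl⟩
  have hbd : BddAbove {k | ∃ u ∈ U0, nEig (ρ (w * u)) = k} := by
    obtain ⟨B, hB⟩ := hb
    exact ⟨B, fun x hx => hB x hx⟩
  obtain ⟨u, hu, h1⟩ := Nat.sSup_mem hne hbd
  refine ⟨u, hu, fun u' hu' => ?_⟩
  rw [h1]
  exact le_csSup hbd ⟨u', hu', rfl⟩

theorem norm_mu {K : Type*} [NontriviallyNormedField K] {V : Type*} [AddCommGroup V] [Module K V]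
    {Γ : Type*} [Group Γ] [TopologicalSpace Γ] [CompactSpace Γ] (ρ : Representation K Γ V)
    (hc : ∀ (v : V) (f : Module.Dual K V), Continuous fun g => f (ρ g v)) (z : Γ) (μ : K)
    (hμ0 : μ ≠ 0) (hμ : ρ z = μ • 1) [Nontrivial V] : ‖μ‖ = 1 := by
  obtain ⟨v, hv⟩ := exists_ne (0 : V)
  obtain ⟨φ, hφ⟩ : ∃ φ : Module.Dual K V, φ v ≠ 0 := by
    by_contra hcon
    push Not at hcon
    exact hv ((Module.forall_dual_apply_eq_zero_iff K v).1 hcon)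
  obtain ⟨B, hB⟩ := isCompact_univ.exists_bound_of_continuousOn (hc v φ).continuousOn
  have key : ∀ j : ℤ, ‖μ‖ ^ j * ‖φ v‖ ≤ B := by
    intro j
    have := hB (z ^ j) (Set.mem_univ _)
    rw [rho_zpow ρ z μ hμ0 hμ j] at this
    simpa [norm_mul, norm_zpow] using this
  have hφ' : 0 < ‖φ v‖ := norm_pos_iff.2 hφ
  have hμ' : 0 < ‖μ‖ := norm_pos_iff.2 hμ0
  have main : ∀ x : ℝ, 0 < x → (∀ n : ℕ, x ^ n * ‖φ v‖ ≤ B) → x ≤ 1 := by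
    intro x hx h
    by_contra hlt
    push Not at hlt
    obtain ⟨n, hn⟩ := pow_unbounded_of_one_lt (B / ‖φ v‖) hlt
    have := h n
    rw [div_lt_iff₀ hφ'] at hn
    linarith
  apply le_antisymm
  · exact main _ hμ' (fun n => by simpa using key n)
  · have h2 := main (‖μ‖⁻¹) (inv_pos.2 hμ') (fun n => by simpa using key (-n))
    exact (inv_le_one₀ hμ').1 h2

theorem uniform {α : Type*} (P : α → ℝ → ℕ → ℕ → Prop)
    (hmono : ∀ a c c' κ κ' C C', 0 < c' → c' ≤ c → κ ≤ κ' → C ≤ C' → P a c κ C → P a c' κ' C')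
    (T : Set α) (hT : T.Finite) (h : ∀ t ∈ T, ∃ c : ℝ, 0 < c ∧ ∃ κ C : ℕ, P t c κ C) :
    ∃ c : ℝ, 0 < c ∧ ∃ κ C : ℕ, ∀ t ∈ T, P t c κ C := by
  induction T, hT using Set.Finite.induction_on with
  | empty => exact ⟨1, one_pos, 0, 0, fun t ht => absurd ht (Set.notMem_empty t)⟩
  | @insert a s _ _ ih =>
    obtain ⟨c1, hc1, κ1, C1, h1⟩ := ih (fun t ht => h t (Set.mem_insert_of_mem _ ht))
    obtain ⟨c2, hc2, κ2, C2, h2⟩ := h a (Set.mem_insert _ _)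
    refine ⟨min c1 c2, lt_min hc1 hc2, max κ1 κ2, max C1 C2, ?_⟩
    intro t ht
    rcases ht with rfl | ht
    · exact hmono _ _ _ _ _ _ _ (lt_min hc1 hc2) (min_le_right _ _) (le_max_right _ _)
        (le_max_right _ _) h2
    · exact hmono _ _ _ _ _ _ _ (lt_min hc1 hc2) (min_le_left _ _) (le_max_left _ _)
        (le_max_left _ _) (h1 t ht)

/-- the estimate for one coset. -/
theorem countx {ℓ : ℕ} {K : Type*} [NontriviallyNormedField K] [CharZero K]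
    {V : Type*} [AddCommGroup V] [Module K V] [FiniteDimensional K V]
    {Γ : Type*} [Group Γ] (ρ : Representation K Γ V) (U0 : Subgroup Γ)
    (μ : K) (hμ0 : μ ≠ 0) (hμ1 : ‖μ‖ = 1) (g t u0 : Γ) (hu0 : u0 ∈ U0) (j : ℤ)
    (hg : ρ g = μ ^ j • ρ (t * u0)) (kt : ℕ) (hkt : ∀ u ∈ U0, nEig (ρ (t * u)) ≤ kt)
    (c : ℝ) (κ C s : ℕ) (N : Subgroup Γ) [N.Normal]
    (hsub : ∀ A : Set (Γ ⧸ N), A ⊆ QuotientGroup.mk '' {h : Γ | t⁻¹ * h ∈ U0} →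
        (∀ h : Γ, t⁻¹ * h ∈ U0 → (h : Γ ⧸ N) ∈ A →
          ‖hank kt (ρ h)‖ ≤ c * ((ℓ : ℝ) ^ (κ * s))⁻¹) →
        A.ncard * ℓ ^ s ≤ C * ((QuotientGroup.mk '' (U0 : Set Γ)) : Set (Γ ⧸ N)).ncard)
    (hlip : ∀ h : Γ, ∀ ν ∈ N, ‖hank kt (ρ (h * ν)) - hank kt (ρ h)‖ ≤ c * ((ℓ : ℝ) ^ (κ * s))⁻¹)
    (Bad : Set Γ) (hBad : ∀ h ∈ Bad, g⁻¹ * h ∈ U0)
    (hBad2 : ∀ h ∈ Bad, ∃ u ∈ U0, nEig (ρ h) < nEig (ρ (h * u))) :
    ((QuotientGroup.mk '' Bad) : Set (Γ ⧸ N)).ncard * ℓ ^ s ≤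
      C * ((QuotientGroup.mk '' (U0 : Set Γ)) : Set (Γ ⧸ N)).ncard := by
  have hτ : ρ (t * u0 * g⁻¹) = μ ^ (-j) • 1 := by
    have e1 : ρ g * ρ g⁻¹ = 1 := by rw [← map_mul]; simp
    have e2 : ρ (t * u0) = μ ^ (-j) • ρ g := by
      rw [hg, smul_smul, ← zpow_add₀ hμ0]; simp
    rw [map_mul, e2, smul_mul_assoc, e1]
  have hinj : Function.Injective (fun x : Γ ⧸ N => ((t * u0 * g⁻¹ : Γ) : Γ ⧸ N) * x) :=
    mul_right_injective _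
  rw [← Set.ncard_image_of_injective _ hinj]
  apply hsub
  · rintro _ ⟨_, ⟨h, hh, rfl⟩, rfl⟩
    refine ⟨t * u0 * g⁻¹ * h, ?_, by simp⟩
    show t⁻¹ * (t * u0 * g⁻¹ * h) ∈ U0
    have : t⁻¹ * (t * u0 * g⁻¹ * h) = u0 * (g⁻¹ * h) := by group
    rw [this]
    exact mul_mem hu0 (hBad h hh)
  · intro h'' _ hA
    obtain ⟨_, ⟨h, hh, rfl⟩, h1⟩ := hA
    have h2 : (((t * u0 * g⁻¹ * h : Γ)) : Γ ⧸ N) = (h'' : Γ ⧸ N) := by
      rw [← h1]; simp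
    rw [QuotientGroup.eq] at h2
    set ν := (t * u0 * g⁻¹ * h)⁻¹ * h'' with hν
    have h3 : h'' = t * u0 * g⁻¹ * (h * ν) := by rw [hν]; group
    have hz : hank kt (ρ h) = 0 := by
      obtain ⟨u, hu, h4⟩ := hBad2 h hh
      apply (specHKL _).2.1
      refine lt_of_lt_of_le h4 ?_
      have h5 : ρ (h * u) = μ ^ j • ρ (t * (u0 * (g⁻¹ * h) * u)) := by
        have : h * u = g * ((g⁻¹ * h) * u) := by group
        rw [this, map_mul, hg, smul_mul_assoc, ← map_mul]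
        congr 2; group
      rw [h5, (specHKL _).2.2.2.2 _ (zpow_ne_zero j hμ0)]
      exact hkt _ (mul_mem (mul_mem hu0 (hBad h hh)) hu)
    have h6 : ‖hank kt (ρ h'')‖ = ‖hank kt (ρ (h * ν))‖ := by
      have : ρ h'' = μ ^ (-j) • ρ (h * ν) := by
        rw [h3, map_mul, hτ, smul_mul_assoc, one_mul]
      rw [this, (specHKL _).2.2.2.1, norm_mul, norm_pow, norm_prod]
      simp [norm_zpow, hμ1]
    rw [h6]
    have := hlip h ν h2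
    rwa [hz, sub_zero] at this

theorem ncard_iUnion_le' {α β : Type*} [Finite α] [Finite β] (s : α → Set β) (L R : ℕ)
    (h : ∀ a, (s a).ncard * L ≤ R) : (⋃ a, s a).ncard * L ≤ Nat.card α * R := by
  classical
  have := Fintype.ofFinite α
  calc (⋃ a, s a).ncard * L ≤ (∑ a, (s a).ncard) * L :=
        Nat.mul_le_mul_right _ (Set.ncard_iUnion_le_of_fintype s)
    _ = ∑ a, (s a).ncard * L := Finset.sum_mul _ _ _
    _ ≤ ∑ _a : α, R := Finset.sum_le_sum fun a _ => h a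
    _ = Nat.card α * R := by simp [Nat.card_eq_fintype_card]

/-- the number of classes modulo `N` of the elements of degree `n` which are not semisimple. -/
theorem count {ℓ : ℕ} [Fact ℓ.Prime] {K : Type*} [NontriviallyNormedField K]
    [NormedAlgebra ℚ_[ℓ] K] [IsUltrametricDist K] [CharZero K]
    {Γ : Type*} [Group Γ] [TopologicalSpace Γ] [IsTopologicalGroup Γ] [CompactSpace Γ]
    [T2Space Γ] [TotallyDisconnectedSpace Γ] (Γ0 : Subgroup Γ) [Γ0.Normal]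
    (hΓ0 : IsClosed (Γ0 : Set Γ)) (F : Γ)
    {V : Type*} [AddCommGroup V] [Module K V] [FiniteDimensional K V] (ρ : Representation K Γ V)
    (hc : ∀ (v : V) (f : Module.Dual K V), Continuous fun g => f (ρ g v))
    (h0 : SSOn ρ (Γ0 : Set Γ)) (z : Γ) (m : ℕ) (hm : 1 ≤ m) (hz : z ∈ degSet Γ0 F m) (μ : K)
    (hμ0 : μ ≠ 0) (hμ1 : ‖μ‖ = 1) (hμ : ρ z = μ • 1) :
    ∃ c : ℝ, 0 < c ∧ ∃ κ C : ℕ, ∀ (t n : ℕ) (N : Subgroup Γ) [N.Normal] [N.FiniteIndex],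
      (∀ k ≤ Module.finrank K V, ∀ h : Γ, ∀ ν ∈ N,
        ‖hank k (ρ (h * ν)) - hank k (ρ h)‖ ≤ c * ((ℓ : ℝ) ^ (κ * t))⁻¹) →
      ((QuotientGroup.mk '' {h : Γ | h ∈ degSet Γ0 F n ∧ ¬ Module.End.IsSemisimple (ρ h)}) :
        Set (Γ ⧸ N)).ncard * ℓ ^ t ≤
      C * ((QuotientGroup.mk '' (Γ0 : Set Γ)) : Set (Γ ⧸ N)).ncard := by
  classical
  -- the function space
  obtain ⟨E, hEf, hEc, hEl, hEF⟩ := specENV ρ hc
    (Set.range fun k : Fin (Module.finrank K V + 1) => fun g => hank (k : ℕ) (ρ g))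
    (Set.finite_range _) (by rintro _ ⟨k, rfl⟩; exact specHAD ρ k)
  have hEk : ∀ k ≤ Module.finrank K V, (fun g => hank k (ρ g)) ∈ E :=
    fun k hk => hEF ⟨⟨k, Nat.lt_succ_of_le hk⟩, rfl⟩
  obtain ⟨U, hUn, hUo, hU⟩ := specSTA E hEl Γ0
  have : (U ⊓ Γ0).Normal := inferInstance
  set U0 : Subgroup Γ := U ⊓ Γ0 with hU0
  have hU0c : IsClosed (U0 : Set Γ) := by
    rw [hU0]
    exact (Subgroup.isClosed_of_isOpen U hUo).inter hΓ0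
  have hUfin : Finite (Γ ⧸ U) := Subgroup.quotient_finite_of_isOpen U hUo
  -- representatives of `Γ0 / U0`
  obtain ⟨R, hR, hR0, hRU⟩ : ∃ R : Set Γ, R.Finite ∧ R ⊆ Γ0 ∧
      ∀ γ ∈ Γ0, ∃ r ∈ R, r⁻¹ * γ ∈ U0 := by
    have : ∀ x : Γ ⧸ U, ∃ r : Γ, ((∃ γ ∈ Γ0, (γ : Γ ⧸ U) = x) → r ∈ Γ0 ∧ (r : Γ ⧸ U) = x) ∧
        r ∈ Γ0 := by
      intro x
      by_cases hx : ∃ γ ∈ Γ0, (γ : Γ ⧸ U) = x
      · obtain ⟨γ, h1, h2⟩ := hx
        exact ⟨γ, fun _ => ⟨h1, h2⟩, h1⟩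
      · exact ⟨1, fun h => absurd h hx, one_mem _⟩
    choose r hr using this
    refine ⟨Set.range r, Set.finite_range r, ?_, ?_⟩
    · rintro _ ⟨x, rfl⟩; exact (hr x).2
    · intro γ hγ
      obtain ⟨h1, h2⟩ := (hr γ).1 ⟨γ, hγ, rfl⟩
      refine ⟨r γ, ⟨_, rfl⟩, ?_, Γ0.mul_mem (Γ0.inv_mem h1) hγ⟩
      exact QuotientGroup.eq.1 h2
  obtain ⟨T, hT, hTW, hTU⟩ := reps ρ Γ0 F U0 z m hm hz μ hμ0 hμ R hR hR0 hRU
  choose um hum hmax using fun w => exists_max ρ U0 w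
  -- the sublevel estimates
  obtain ⟨c, hc0, κ, C, hP⟩ := uniform
    (fun (t : Γ) (c : ℝ) (κ C : ℕ) => ∀ s : ℕ, ∀ (N : Subgroup Γ) [N.Normal] [N.FiniteIndex],
      ∀ A : Set (Γ ⧸ N), A ⊆ QuotientGroup.mk '' {h : Γ | t⁻¹ * h ∈ U0} →
        (∀ h : Γ, t⁻¹ * h ∈ U0 → (h : Γ ⧸ N) ∈ A →
          ‖hank (nEig (ρ (t * um t))) (ρ h)‖ ≤ c * ((ℓ : ℝ) ^ (κ * s))⁻¹) →
        A.ncard * ℓ ^ s ≤ C * ((QuotientGroup.mk '' (U0 : Set Γ)) : Set (Γ ⧸ N)).ncard)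
    (by
      intro a c c' κ κ' C C' hc' hcc hκ hC hP s N _ _ A hA h
      refine (hP s N A hA fun x hx hxA => (h x hx hxA).trans ?_).trans (Nat.mul_le_mul_right _ hC)
      have hℓ : (1 : ℝ) ≤ ℓ := by exact_mod_cast (Fact.out : ℓ.Prime).one_lt.le
      have hℓ0 : (0 : ℝ) < ℓ := by linarith
      exact mul_le_mul hcc (inv_anti₀ (pow_pos hℓ0 _)
        (pow_le_pow_right₀ hℓ (Nat.mul_le_mul_right _ hκ))) (by positivity) (hc'.le.trans hcc))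
    T hT (by
      intro t _
      exact specSUB E hEc hEl U0 hU0c t (fun g => hank (nEig (ρ (t * um t))) (ρ g))
        (hEk _ (specHKL _).2.2.1) (by
          intro u hu O hO h1O
          refine hU _ (hEk _ (specHKL _).2.2.1) (t * u) ⟨u⁻¹ * um t,
            mul_mem (inv_mem hu) (hum t), ?_⟩ O hO h1O
          have : t * u * (u⁻¹ * um t) = t * um t := by group
          rw [this]
          exact (specHKL _).1))
  refine ⟨c, hc0, κ, Nat.card (Γ ⧸ U) * C, ?_⟩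
  intro s n N _ _ hlip
  have hcov : ((QuotientGroup.mk '' {h : Γ | h ∈ degSet Γ0 F n ∧
      ¬ Module.End.IsSemisimple (ρ h)}) : Set (Γ ⧸ N)) =
      ⋃ x : Γ ⧸ U, QuotientGroup.mk '' {h : Γ | (h ∈ degSet Γ0 F n ∧
      ¬ Module.End.IsSemisimple (ρ h)) ∧ (h : Γ ⧸ U) = x} := by
    rw [← Set.image_iUnion]
    congr 1
    ext h
    simp
  have hNfin : Finite (Γ ⧸ N) := inferInstance
  have hle : ((QuotientGroup.mk '' (U0 : Set Γ)) : Set (Γ ⧸ N)).ncard ≤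
      ((QuotientGroup.mk '' (Γ0 : Set Γ)) : Set (Γ ⧸ N)).ncard := by
    apply Set.ncard_le_ncard _ (Set.toFinite _)
    exact Set.image_mono (fun x hx => hx.2)
  have hx : ∀ x : Γ ⧸ U, ((QuotientGroup.mk '' {h : Γ | (h ∈ degSet Γ0 F n ∧
      ¬ Module.End.IsSemisimple (ρ h)) ∧ (h : Γ ⧸ U) = x}) : Set (Γ ⧸ N)).ncard * ℓ ^ s ≤
      C * ((QuotientGroup.mk '' (U0 : Set Γ)) : Set (Γ ⧸ N)).ncard := by
    intro x
    by_cases hemp : ({h : Γ | (h ∈ degSet Γ0 F n ∧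
      ¬ Module.End.IsSemisimple (ρ h)) ∧ (h : Γ ⧸ U) = x}).Nonempty
    · obtain ⟨g, ⟨hgd, hgs⟩, hgx⟩ := hemp
      obtain ⟨t, htT, j, u0, hu0, hgt⟩ := hTU g (degSet_subset_WW hgd)
      refine countx ρ U0 μ hμ0 hμ1 g t u0 hu0 j hgt (nEig (ρ (t * um t))) (hmax t) c κ C s N
        (hP t htT s N) (fun h ν hν => hlip _ (specHKL _).2.2.1 h ν hν) _ ?_ ?_
      · rintro h ⟨⟨hhd, _⟩, hhx⟩
        refine ⟨?_, ?_⟩
        · exact QuotientGroup.eq.1 (hgx.trans hhx.symm)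
        · have : g⁻¹ * h = ((F ^ n)⁻¹ * g)⁻¹ * ((F ^ n)⁻¹ * h) := by group
          rw [this]
          exact Γ0.mul_mem (Γ0.inv_mem hgd) hhd
      · rintro h ⟨⟨hhd, hhs⟩, _⟩
        by_contra hcon
        push Not at hcon
        exact hhs (claim1 ρ Γ0 F h0 U0 z m hm hz μ hμ0 hμ R hR hR0 hRU h
          (degSet_subset_WW hhd) hcon)
    · rw [Set.not_nonempty_iff_eq_empty] at hemp
      rw [hemp]
      simp
  rw [hcov]
  calc _ ≤ Nat.card (Γ ⧸ U) * (C * ((QuotientGroup.mk '' (U0 : Set Γ)) : Set (Γ ⧸ N)).ncard) :=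
        ncard_iUnion_le' _ _ _ hx
    _ ≤ _ := by
        rw [← mul_assoc]
        exact Nat.mul_le_mul_left _ hle

end MPb685PS.SCA

namespace MPb685PS
open SCA

/-- the case where `z` acts as a scalar. -/
theorem specSCA {ℓ : ℕ} [Fact ℓ.Prime] {K : Type*} [NontriviallyNormedField K]
    [NormedAlgebra ℚ_[ℓ] K] [IsUltrametricDist K] [FiniteDimensional ℚ_[ℓ] K] [CharZero K]
    {Γ : Type*} [Group Γ] [TopologicalSpace Γ] [IsTopologicalGroup Γ] [CompactSpace Γ]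
    [T2Space Γ] [TotallyDisconnectedSpace Γ] (Γ0 : Subgroup Γ) [Γ0.Normal]
    (hΓ0 : IsClosed (Γ0 : Set Γ)) (F : Γ) (hF : Dense {g : Γ | ∃ n : ℤ, (F ^ n)⁻¹ * g ∈ Γ0})
    {V : Type*} [AddCommGroup V] [Module K V] [FiniteDimensional K V] (ρ : Representation K Γ V)
    (hc : ∀ (v : V) (f : Module.Dual K V), Continuous fun g => f (ρ g v))
    (h0 : SSOn ρ (Γ0 : Set Γ)) (z : Γ) (m : ℕ) (hm : 1 ≤ m) (hz : z ∈ degSet Γ0 F m) (μ : K)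
    (hμ : ρ z = μ • 1) (q : ℕ) (hq : 2 ≤ q) (d : ℝ) {S : ℕ → Type*} [∀ n, Finite (S n)]
    (Fr : ∀ n, S n → Γ) (hFr : ∀ n y, Fr n y ∈ degSet Γ0 F n)
    (hcheb : EffChebotarev ρ Γ0 F q d Fr) :
    ∃ δ : ℝ, 0 < δ ∧ ∃ C : ℝ, 0 ≤ C ∧ ∀ n : ℕ, 1 ≤ n →
      (({y : S n | ¬ Module.End.IsSemisimple (ρ (Fr n y))}.ncard : ℕ) : ℝ) ≤
        C * (q : ℝ) ^ ((n : ℝ) * (d - δ)) := by
  classical
  rcases subsingleton_or_nontrivial V with hV | hV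
  · refine ⟨1, one_pos, 0, le_refl _, fun n _ => ?_⟩
    have : {y : S n | ¬ Module.End.IsSemisimple (ρ (Fr n y))} = ∅ := by
      rw [Set.eq_empty_iff_forall_notMem]
      intro y hy
      apply hy
      have h1 : ρ (Fr n y) = 0 := LinearMap.ext fun v => Subsingleton.elim _ _
      rw [h1]
      exact Module.End.isSemisimple_zero
    rw [this]
    simp
  have hμ0 : μ ≠ 0 := by
    rintro rfl
    obtain ⟨v, hv⟩ := exists_ne (0 : V)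
    have h1 : ρ z v = 0 := by rw [hμ]; simp
    have h2 : ρ z⁻¹ (ρ z v) = v := by
      rw [← Module.End.mul_apply, ← map_mul]; simp
    rw [h1, map_zero] at h2
    exact hv h2.symm
  have hμ1 : ‖μ‖ = 1 := norm_mu ρ hc z μ hμ0 hμ
  have hℓ2 : 2 ≤ ℓ := (Fact.out : ℓ.Prime).two_le
  have hℓ1 : (1 : ℝ) < ℓ := by exact_mod_cast hℓ2
  have hℓ0 : (0 : ℝ) < ℓ := by linarith
  obtain ⟨c, hc0, κ, C, hcount⟩ := count (ℓ := ℓ) Γ0 hΓ0 F ρ hc h0 z m hm hz μ hμ0 hμ1 hμ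
  obtain ⟨N, hNn, hNo, hNk, ⟨Q, hQ⟩, hNl⟩ := specLEV (ℓ := ℓ) ρ hc
  choose L hL using fun k : ℕ => hNl _ (specHAD ρ k)
  -- a uniform Lipschitz constant
  obtain ⟨L0, hL0⟩ : ∃ L0 : ℝ, ∀ k ≤ Module.finrank K V, L k ≤ L0 := by
    refine ⟨∑ k ∈ Finset.range (Module.finrank K V + 1), |L k|, fun k hk => ?_⟩
    refine (le_abs_self _).trans ?_
    exact Finset.single_le_sum (f := fun k => |L k|) (fun i _ => abs_nonneg _)
      (Finset.mem_range.2 (Nat.lt_succ_of_le hk))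
  obtain ⟨m1, hm1⟩ : ∃ m1 : ℕ, L0 * ((ℓ : ℝ) ^ m1)⁻¹ ≤ c := by
    obtain ⟨m1, hm1⟩ := pow_unbounded_of_one_lt (L0 / c) hℓ1
    refine ⟨m1, ?_⟩
    rw [div_lt_iff₀ hc0] at hm1
    rw [mul_inv_le_iff₀ (pow_pos hℓ0 _)]
    linarith
  obtain ⟨A, B, hAB⟩ := hcheb
  set A' : ℝ := max A 0 with hA'
  set B' : ℝ := max B 0 with hB'
  set Q' : ℝ := max (Q : ℝ) 1 with hQ'
  have hQ1 : 1 ≤ Q' := le_max_right _ _
  have hB0 : 0 ≤ B' := le_max_right _ _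
  have hA0 : 0 ≤ A' := le_max_right _ _
  obtain ⟨δ, hδ, C1, hC1, hnum⟩ := specNUM q ℓ hq hℓ2 d (C : ℝ)
    (A' * Q' ^ (((m1 : ℝ) + 1) * B')) (Q' ^ ((κ : ℝ) * B')) (Nat.cast_nonneg _)
    (mul_nonneg hA0 (Real.rpow_nonneg (by linarith) _))
    (Real.one_le_rpow hQ1 (mul_nonneg (Nat.cast_nonneg _) hB0))
  refine ⟨δ, hδ, C1, hC1, fun n hn => ?_⟩
  obtain ⟨t, ht⟩ := hnum n
  refine le_trans ?_ ht
  have hq0 : (0 : ℝ) < q := by exact_mod_cast (by omega : 0 < q)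
  have : (N (κ * t + m1)).Normal := hNn _
  have hfin : Finite (Γ ⧸ N (κ * t + m1)) := Subgroup.quotient_finite_of_isOpen _ (hNo _)
  have : (N (κ * t + m1)).FiniteIndex := Subgroup.finiteIndex_of_finite_quotient
  have hcnt := hcount t n (N (κ * t + m1)) (by
    intro k hk h ν hν
    refine (hL k (κ * t + m1) h ν hν).trans ?_
    calc L k * ((ℓ : ℝ) ^ (κ * t + m1))⁻¹ ≤ L0 * ((ℓ : ℝ) ^ (κ * t + m1))⁻¹ :=
          mul_le_mul_of_nonneg_right (hL0 k hk) (inv_nonneg.2 (pow_nonneg hℓ0.le _))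
      _ = (L0 * ((ℓ : ℝ) ^ m1)⁻¹) * ((ℓ : ℝ) ^ (κ * t))⁻¹ := by
          rw [pow_add, mul_inv]; ring
      _ ≤ c * ((ℓ : ℝ) ^ (κ * t))⁻¹ :=
          mul_le_mul_of_nonneg_right hm1 (inv_nonneg.2 (pow_nonneg hℓ0.le _)))
  set CC : Set (Γ ⧸ N (κ * t + m1)) := QuotientGroup.mk ''
    {h : Γ | h ∈ degSet Γ0 F n ∧ ¬ Module.End.IsSemisimple (ρ h)} with hCC
  -- conjugation invariance
  have hconj : ∀ a ∈ CC, ∀ b : Γ ⧸ N (κ * t + m1), b * a * b⁻¹ ∈ CC := by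
    rintro _ ⟨h, ⟨hh, hs⟩, rfl⟩ b
    obtain ⟨b0, rfl⟩ := QuotientGroup.mk_surjective b
    -- a representative of integral degree
    obtain ⟨b1, hb1, hb2⟩ : ∃ b1 : Γ, (∃ n : ℤ, (F ^ n)⁻¹ * b1 ∈ Γ0) ∧
        b0⁻¹ * b1 ∈ N (κ * t + m1) := by
      have hopen : IsOpen ((fun x => b0⁻¹ * x) ⁻¹' (N (κ * t + m1) : Set Γ)) :=
        (hNo _).preimage (continuous_const.mul continuous_id)
      obtain ⟨x, hx1, hx2⟩ := hF.inter_open_nonempty _ hopen ⟨b0, by simp⟩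
      exact ⟨x, hx2, hx1⟩
    have hb : (b0 : Γ ⧸ N (κ * t + m1)) = b1 := QuotientGroup.eq.2 hb2
    rw [hb]
    refine ⟨b1 * h * b1⁻¹, ⟨?_, ?_⟩, by simp⟩
    · show (F ^ n)⁻¹ * (b1 * h * b1⁻¹) ∈ Γ0
      obtain ⟨i, hi⟩ := hb1
      rw [← QuotientGroup.eq] at hi
      have hh' : (F ^ n)⁻¹ * h ∈ Γ0 := hh
      rw [← QuotientGroup.eq] at hh'
      rw [← QuotientGroup.eq]
      have e1 : ((b1 : Γ) : Γ ⧸ Γ0) = (F : Γ ⧸ Γ0) ^ i := by simpa using hi.symm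
      have e2 : ((h : Γ) : Γ ⧸ Γ0) = (F : Γ ⧸ Γ0) ^ n := by simpa using hh'.symm
      have e3 : ((b1 * h * b1⁻¹ : Γ) : Γ ⧸ Γ0) = (F : Γ ⧸ Γ0) ^ n := by
        have : ((b1 * h * b1⁻¹ : Γ) : Γ ⧸ Γ0) = (b1 : Γ ⧸ Γ0) * h * (b1 : Γ ⧸ Γ0)⁻¹ := by simp
        rw [this, e1, e2]
        have hcm : Commute ((F : Γ ⧸ Γ0) ^ i) ((F : Γ ⧸ Γ0) ^ n) :=
          (Commute.refl _).zpow_left i |>.pow_right n
        rw [hcm.eq, mul_inv_cancel_right]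
      rw [e3]; simp
    · intro hss
      apply hs
      have e1 : ρ b1 * ρ b1⁻¹ = 1 := by rw [← map_mul]; simp
      have e2 : ρ b1⁻¹ * ρ b1 = 1 := by rw [← map_mul]; simp
      let e : V ≃ₗ[K] V := LinearEquiv.ofLinearMap (ρ b1) (ρ b1⁻¹) e1 e2
      refine (LinearEquiv.isSemisimple_iff (ρ h) (ρ (b1 * h * b1⁻¹)) e ?_).2 hss
      have e3 : ρ b1 * ρ h = ρ (b1 * h * b1⁻¹) * ρ b1 := by
        rw [← map_mul, ← map_mul]; simp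
      exact e3
  have hsub := hAB n hn (N (κ * t + m1)) (hNo _) (hNk _) CC hconj
  have hcard1 : (1 : ℝ) ≤ Nat.card (Γ ⧸ N (κ * t + m1)) := by
    exact_mod_cast Nat.card_pos
  -- the points with a bad Frobenius are counted by `CC`
  have hstep1 : (({y : S n | ¬ Module.End.IsSemisimple (ρ (Fr n y))}.ncard : ℕ) : ℝ) ≤
      (({y : S n | ((Fr n y : Γ) : Γ ⧸ N (κ * t + m1)) ∈ CC}.ncard : ℕ) : ℝ) := by
    refine Nat.cast_le.2 (Set.ncard_le_ncard ?_ (Set.toFinite _))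
    intro y hy
    exact ⟨Fr n y, ⟨hFr n y, hy⟩, rfl⟩
  refine hstep1.trans (hsub.trans (add_le_add ?_ ?_))
  · refine mul_le_mul_of_nonneg_right ?_ (Real.rpow_nonneg hq0.le _)
    have hG0 : 0 < (((QuotientGroup.mk '' (Γ0 : Set Γ)) : Set (Γ ⧸ N (κ * t + m1))).ncard : ℝ) := by
      have : 0 < ((QuotientGroup.mk '' (Γ0 : Set Γ)) : Set (Γ ⧸ N (κ * t + m1))).ncard :=
        (Set.ncard_pos (Set.toFinite _)).2 ⟨_, 1, one_mem _, rfl⟩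
      exact_mod_cast this
    rw [div_le_iff₀ hG0]
    have h1 : ((CC ∩ (QuotientGroup.mk '' degSet Γ0 F n)).ncard : ℝ) ≤ (CC.ncard : ℝ) :=
      Nat.cast_le.2 (Set.ncard_le_ncard Set.inter_subset_left (Set.toFinite _))
    have h2 : (CC.ncard : ℝ) * (ℓ : ℝ) ^ t ≤
        (C : ℝ) * (((QuotientGroup.mk '' (Γ0 : Set Γ)) : Set (Γ ⧸ N (κ * t + m1))).ncard : ℝ) := by
      exact_mod_cast hcnt
    refine h1.trans ?_
    have h3 : (CC.ncard : ℝ) ≤ ((C : ℝ) *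
        (((QuotientGroup.mk '' (Γ0 : Set Γ)) : Set (Γ ⧸ N (κ * t + m1))).ncard : ℝ)) *
          ((ℓ : ℝ) ^ t)⁻¹ := by
      rw [le_mul_inv_iff₀ (pow_pos hℓ0 _)]
      exact h2
    refine h3.trans (le_of_eq ?_)
    ring
  · refine mul_le_mul_of_nonneg_right ?_ (Real.rpow_nonneg hq0.le _)
    have h1 : (Nat.card (Γ ⧸ N (κ * t + m1)) : ℝ) ^ B ≤
        (Nat.card (Γ ⧸ N (κ * t + m1)) : ℝ) ^ B' :=
      Real.rpow_le_rpow_of_exponent_le hcard1 (le_max_left _ _)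
    have h2 : (Nat.card (Γ ⧸ N (κ * t + m1)) : ℝ) ≤ Q' ^ (κ * t + m1 + 1) := by
      refine le_trans (b := (Q : ℝ) ^ (κ * t + m1 + 1)) (by exact_mod_cast hQ (κ * t + m1)) ?_
      exact pow_le_pow_left₀ (Nat.cast_nonneg _) (le_max_left _ _) _
    have h3 : (Nat.card (Γ ⧸ N (κ * t + m1)) : ℝ) ^ B' ≤ (Q' ^ (κ * t + m1 + 1)) ^ B' :=
      Real.rpow_le_rpow (by linarith) h2 hB0
    have h4 : (Q' ^ (κ * t + m1 + 1) : ℝ) ^ B' =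
        Q' ^ (((m1 : ℝ) + 1) * B') * (Q' ^ ((κ : ℝ) * B')) ^ t := by
      have hQ0 : 0 < Q' := by linarith
      rw [← Real.rpow_natCast, ← Real.rpow_natCast, ← Real.rpow_mul hQ0.le, ← Real.rpow_mul hQ0.le,
        ← Real.rpow_add hQ0]
      congr 1
      push_cast
      ring
    calc A * (Nat.card (Γ ⧸ N (κ * t + m1)) : ℝ) ^ B
        ≤ A' * (Nat.card (Γ ⧸ N (κ * t + m1)) : ℝ) ^ B :=
          mul_le_mul_of_nonneg_right (le_max_left _ _) (Real.rpow_nonneg (by linarith) _)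
      _ ≤ A' * (Q' ^ (((m1 : ℝ) + 1) * B') * (Q' ^ ((κ : ℝ) * B')) ^ t) :=
          mul_le_mul_of_nonneg_left (h1.trans (h3.trans h4.le)) hA0
      _ = _ := by ring

end MPb685PS
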