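import Pool.Agent.Lib.MP_b685ef_ag.ZO.Defs

/-!
MP_b685ef_ag : power saving for the members of a family whose Frobenius is not semisimple.
Definitions shared by all modules of this folder.
-/

open MPb685ZO

namespace MPb685PS

/-- the coset `F ^ n Γ0` (elements of degree `n`). -/
def degSet {Γ : Type*} [Group Γ] (Γ0 : Subgroup Γ) (F : Γ) (n : ℕ) : Set Γ :=
  {g | (F ^ n)⁻¹ * g ∈ Γ0}

/-- Effective Chebotarev theorem (upper bound, square root error term) for the Frobenius elements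
`Fr n y`, `y` a point over the field with `q ^ n` elements, in the finite quotients `Γ ⧸ N` of
`Γ` through which only `ρ` passes (`N` contains the kernel of `ρ`): a conjugation-invariant set
`C` is hit at most (proportion of `C` among the elements of degree `n`) `* q ^ (n d)` times, up
to an error `A [Γ : N] ^ B q ^ (n (d - 1 / 2))`. -/
def EffChebotarev {K : Type*} [Field K] {V : Type*} [AddCommGroup V] [Module K V]
    {Γ : Type*} [Group Γ] [TopologicalSpace Γ] (ρ : Representation K Γ V) (Γ0 : Subgroup Γ)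
    (F : Γ) (q : ℕ) (d : ℝ) {S : ℕ → Type*} (Fr : ∀ n, S n → Γ) : Prop :=
  ∃ A B : ℝ, ∀ n : ℕ, 1 ≤ n → ∀ (N : Subgroup Γ) [N.Normal], IsOpen (N : Set Γ) →
    (∀ g, ρ g = 1 → g ∈ N) → ∀ C : Set (Γ ⧸ N), (∀ a ∈ C, ∀ b : Γ ⧸ N, b * a * b⁻¹ ∈ C) →
    (({y : S n | ((Fr n y : Γ) : Γ ⧸ N) ∈ C}.ncard : ℕ) : ℝ) ≤
      ((C ∩ (QuotientGroup.mk '' degSet Γ0 F n)).ncard : ℝ) /
        (((QuotientGroup.mk '' (Γ0 : Set Γ)) : Set (Γ ⧸ N)).ncard : ℝ) * (q : ℝ) ^ ((n : ℝ) * d)
      + A * (Nat.card (Γ ⧸ N) : ℝ) ^ B * (q : ℝ) ^ ((n : ℝ) * (d - 1 / 2))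

/-- `w(x) = u_0 ^ x_0 * u_1 ^ x_1 * ... `. -/
def wrd {Γ : Type*} [Monoid Γ] : (D : ℕ) → (Fin D → Γ) → (Fin D → ℕ) → Γ
  | 0, _, _ => 1
  | D + 1, u, x => u 0 ^ x 0 * wrd D (Fin.tail u) (Fin.tail x)

/-- the Hankel determinant of the power sums `tr (A ^ (a + b))`, `a, b < k`. -/
noncomputable def hank {K : Type*} [Field K] {V : Type*} [AddCommGroup V] [Module K V]
    (k : ℕ) (A : Module.End K V) : K :=
  Matrix.det (Matrix.of fun a b : Fin k => LinearMap.trace K V (A ^ ((a : ℕ) + (b : ℕ))))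

/-- the restriction of a representation to a stable subspace. -/
noncomputable def resRep {K : Type*} [Field K] {V : Type*} [AddCommGroup V] [Module K V]
    {G : Type*} [Group G] (ρ : Representation K G V) (W : Submodule K V)
    (hW : ∀ g, ∀ w ∈ W, ρ g w ∈ W) : Representation K G W where
  toFun g := (ρ g).restrict (hW g)
  map_one' := by ext; simp
  map_mul' g h := by ext; simp

end MPb685PS
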